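import Pool.Agent.Weiss.Defs

/-!
Configurations over a finite alphabet with a background symbol, with the metric
`D(x,y) = sup_n 2^{-|n|} d(x_n,y_n)` where `d` takes the values `0`, `1/2` (near) and `1` (far).
-/

namespace Pool.Agent.Weiss

open Filter Topology

/-- A symmetric irreflexive relation of being far apart. -/
class Far (S : Type) where
  far : S → S → Prop
  symm : ∀ a b, far a b → far b a
  irrefl : ∀ a, ¬ far a a

/-- The far relation on symbols and the background `none`, which is far from every symbol. -/
def ofar {S : Type} [Far S] : Option S → Option S → Prop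
  | none, none => False
  | none, some _ => True
  | some _, none => True
  | some a, some b => Far.far a b

theorem ofar_symm {S : Type} [Far S] {a b : Option S} (h : ofar a b) : ofar b a := by
  cases a with
  | none => cases b with
    | none => exact h
    | some b => trivial
  | some a => cases b with
    | none => trivial
    | some b => exact Far.symm _ _ h

theorem ofar_irrefl {S : Type} [Far S] (a : Option S) : ¬ ofar a a := by
  cases a with
  | none => simp [ofar]
  | some a => exact Far.irrefl a

open Classical in
/-- The distance of two symbols. -/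
noncomputable def sd {S : Type} [Far S] (a b : Option S) : ℝ :=
  if a = b then 0 else if ofar a b then 1 else 1 / 2

section
variable {S : Type} [Far S]

theorem sd_self (a : Option S) : sd a a = 0 := by simp [sd]

theorem sd_comm (a b : Option S) : sd a b = sd b a := by
  by_cases h1 : a = b
  · rw [h1]
  · have h1' : b ≠ a := fun h => h1 h.symm
    by_cases h2 : ofar a b
    · have h2' := ofar_symm h2
      simp only [sd, h1, h1', h2, h2', if_true, if_false]
    · have h2' : ¬ ofar b a := fun h => h2 (ofar_symm h)
      simp only [sd, h1, h1', h2, h2', if_false]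

theorem sd_nonneg (a b : Option S) : 0 ≤ sd a b := by
  unfold sd; split_ifs <;> norm_num

theorem sd_le_one (a b : Option S) : sd a b ≤ 1 := by
  unfold sd; split_ifs <;> norm_num

theorem half_le_sd {a b : Option S} (h : a ≠ b) : 1 / 2 ≤ sd a b := by
  unfold sd; rw [if_neg h]; split_ifs <;> norm_num

theorem sd_eq_one_iff {a b : Option S} : sd a b = 1 ↔ ofar a b := by
  unfold sd
  split_ifs with h1 h2
  · subst h1; simp [ofar_irrefl]
  · simp [h2]
  · simp only [h2, iff_false]; norm_num

theorem sd_triangle (a b c : Option S) : sd a c ≤ sd a b + sd b c := by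
  by_cases h1 : a = b
  · subst h1; simp [sd_self]
  by_cases h2 : b = c
  · subst h2; simp [sd_self]
  have := half_le_sd h1
  have := half_le_sd h2
  have := sd_le_one a c
  linarith

end

/-- Two-sided sequences of symbols. -/
structure Cfg (S : Type) where
  toFun : ℤ → Option S

namespace Cfg

variable {S : Type}

instance : CoeFun (Cfg S) (fun _ => ℤ → Option S) := ⟨Cfg.toFun⟩

theorem ext' {x y : Cfg S} (h : ∀ n, x n = y n) : x = y := by
  cases x; cases y; congr; funext n; exact h n

variable [Far S]

/-- The weighted distance at one coordinate. -/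
noncomputable def wd (x y : Cfg S) (n : ℤ) : ℝ := (1 / 2) ^ n.natAbs * sd (x n) (y n)

theorem wd_nonneg (x y : Cfg S) (n : ℤ) : 0 ≤ wd x y n :=
  mul_nonneg (by positivity) (sd_nonneg _ _)

theorem wd_le_pow (x y : Cfg S) (n : ℤ) : wd x y n ≤ (1 / 2) ^ n.natAbs := by
  have := sd_le_one (x n) (y n)
  have h : (0 : ℝ) ≤ (1 / 2) ^ n.natAbs := by positivity
  unfold wd; nlinarith

theorem wd_le_one (x y : Cfg S) (n : ℤ) : wd x y n ≤ 1 :=
  (wd_le_pow x y n).trans (pow_le_one₀ (by norm_num) (by norm_num))

theorem bdd (x y : Cfg S) : BddAbove (Set.range (wd x y)) :=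
  ⟨1, by rintro _ ⟨n, rfl⟩; exact wd_le_one x y n⟩

noncomputable instance : Dist (Cfg S) := ⟨fun x y => ⨆ n : ℤ, wd x y n⟩

theorem dist_def (x y : Cfg S) : dist x y = ⨆ n : ℤ, wd x y n := rfl

theorem wd_le_dist (x y : Cfg S) (n : ℤ) : wd x y n ≤ dist x y := le_ciSup (bdd x y) n

theorem dist_le {x y : Cfg S} {r : ℝ} (h : ∀ n, wd x y n ≤ r) : dist x y ≤ r := ciSup_le h

theorem dist_le_one (x y : Cfg S) : dist x y ≤ 1 := dist_le (wd_le_one x y)

noncomputable instance : MetricSpace (Cfg S) where
  dist_self x := by
    rw [dist_def]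
    have : wd x x = fun _ => 0 := by funext n; simp [wd, sd_self]
    rw [this]; simp
  dist_comm x y := by
    rw [dist_def, dist_def]
    congr 1; funext n; simp [wd, sd_comm (x n) (y n)]
  dist_triangle x y z := by
    apply dist_le
    intro n
    have h1 := wd_le_dist x y n
    have h2 := wd_le_dist y z n
    have h3 : wd x z n ≤ wd x y n + wd y z n := by
      unfold wd
      rw [← mul_add]
      exact mul_le_mul_of_nonneg_left (sd_triangle _ _ _) (by positivity)
    linarith
  eq_of_dist_eq_zero {x y} h := by
    apply ext'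
    intro n
    by_contra hne
    have h1 := wd_le_dist x y n
    have h2 := half_le_sd hne
    rw [h] at h1
    have h3 : (0 : ℝ) < (1 / 2) ^ n.natAbs := by positivity
    unfold wd at h1
    nlinarith

/-- The distance is at least `1` iff the central symbols are far. -/
theorem one_le_dist_iff {x y : Cfg S} : 1 ≤ dist x y ↔ ofar (x 0) (y 0) := by
  constructor
  · intro h
    by_contra hn
    have h0 : wd x y 0 ≤ 1 / 2 := by
      unfold wd
      simp only [Int.natAbs_zero, pow_zero, one_mul]
      unfold sd
      rw [if_neg hn]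
      split_ifs <;> norm_num
    have : dist x y ≤ 1 / 2 := by
      apply dist_le
      intro n
      by_cases hn0 : n = 0
      · subst hn0; exact h0
      · refine (wd_le_pow x y n).trans ?_
        have : 1 ≤ n.natAbs := by omega
        calc ((1 : ℝ) / 2) ^ n.natAbs ≤ (1 / 2) ^ 1 :=
              pow_le_pow_of_le_one (by norm_num) (by norm_num) this
          _ = 1 / 2 := by norm_num
    linarith
  · intro h
    have := wd_le_dist x y 0
    unfold wd at this
    rw [sd_eq_one_iff.mpr h] at this
    simpa using this

/-- Points agreeing on a large window are close. -/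
theorem dist_le_of_agree {x y : Cfg S} {N : ℕ} (h : ∀ n : ℤ, n.natAbs < N → x n = y n) :
    dist x y ≤ (1 / 2) ^ N := by
  apply dist_le
  intro n
  by_cases hn : n.natAbs < N
  · unfold wd; rw [h n hn, sd_self]; simp
  · refine (wd_le_pow x y n).trans ?_
    exact pow_le_pow_of_le_one (by norm_num) (by norm_num) (by omega)

/-- The shift by one step. -/
def shift (x : Cfg S) : Cfg S := ⟨fun n => x (n + 1)⟩

/-- The inverse shift. -/
def unshift (x : Cfg S) : Cfg S := ⟨fun n => x (n - 1)⟩

omit [Far S] in
theorem shift_unshift (x : Cfg S) : shift (unshift x) = x := by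
  apply ext'; intro n; simp [shift, unshift]

omit [Far S] in
theorem unshift_shift (x : Cfg S) : unshift (shift x) = x := by
  apply ext'; intro n; simp [shift, unshift]

theorem dist_shift_le (x y : Cfg S) : dist (shift x) (shift y) ≤ 2 * dist x y := by
  apply dist_le
  intro n
  have h := wd_le_dist x y (n + 1)
  have h1 : (n + 1).natAbs ≤ n.natAbs + 1 := by omega
  have h2 : ((1 : ℝ) / 2) ^ (n.natAbs + 1) ≤ (1 / 2) ^ (n + 1).natAbs :=
    pow_le_pow_of_le_one (by norm_num) (by norm_num) h1
  unfold wd at h ⊢
  simp only [shift]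
  have h3 := sd_nonneg (x (n + 1)) (y (n + 1))
  rw [pow_succ] at h2
  nlinarith

theorem dist_unshift_le (x y : Cfg S) : dist (unshift x) (unshift y) ≤ 2 * dist x y := by
  apply dist_le
  intro n
  have h := wd_le_dist x y (n - 1)
  have h1 : (n - 1).natAbs ≤ n.natAbs + 1 := by omega
  have h2 : ((1 : ℝ) / 2) ^ (n.natAbs + 1) ≤ (1 / 2) ^ (n - 1).natAbs :=
    pow_le_pow_of_le_one (by norm_num) (by norm_num) h1
  unfold wd at h ⊢
  simp only [unshift]
  have h3 := sd_nonneg (x (n - 1)) (y (n - 1))
  rw [pow_succ] at h2
  nlinarith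

theorem continuous_shift : Continuous (shift : Cfg S → Cfg S) :=
  (LipschitzWith.of_dist_le_mul (K := 2) (fun x y => by
    have := dist_shift_le x y; simpa using this)).continuous

theorem continuous_unshift : Continuous (unshift : Cfg S → Cfg S) :=
  (LipschitzWith.of_dist_le_mul (K := 2) (fun x y => by
    have := dist_unshift_le x y; simpa using this)).continuous

/-- A symbol at a fixed place is a locally constant function of the point. -/
theorem eq_of_dist_lt {x y : Cfg S} {n : ℤ} (h : dist x y < (1 / 2) ^ (n.natAbs + 1)) :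
    x n = y n := by
  by_contra hne
  have h1 := wd_le_dist x y n
  have h2 := half_le_sd hne
  have h3 : (0 : ℝ) < (1 / 2) ^ n.natAbs := by positivity
  unfold wd at h1
  rw [pow_succ] at h
  nlinarith

/-- Any set of configurations given by conditions on finite windows is closed. -/
theorem isClosed_of_windows (P : (ℤ → Option S) → Prop)
    (hP : ∀ x : Cfg S, ¬ P x → ∃ N : ℕ, ∀ y : Cfg S, (∀ n : ℤ, n.natAbs < N → x n = y n) → ¬ P y) :
    IsClosed {x : Cfg S | P x} := by
  rw [← isOpen_compl_iff, Metric.isOpen_iff]
  intro x hx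
  obtain ⟨N, hN⟩ := hP x hx
  refine ⟨(1 / 2) ^ (N + 1), by positivity, ?_⟩
  intro y hy
  apply hN
  intro n hn
  apply eq_of_dist_lt
  rw [Metric.mem_ball, dist_comm] at hy
  refine lt_of_lt_of_le hy ?_
  exact pow_le_pow_of_le_one (by norm_num) (by norm_num) (by omega)

instance [Finite S] : CompactSpace (Cfg S) := by
  let _ : TopologicalSpace (Option S) := ⊥
  have : DiscreteTopology (Option S) := ⟨rfl⟩
  have hc : Continuous (Cfg.mk : (ℤ → Option S) → Cfg S) := by
    rw [continuous_iff_continuousAt]
    intro x
    rw [ContinuousAt, Metric.tendsto_nhds]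
    intro ε hε
    obtain ⟨N, hN⟩ := exists_pow_lt_of_lt_one hε (show (1 / 2 : ℝ) < 1 by norm_num)
    have hfin : {n : ℤ | n.natAbs < N}.Finite := by
      apply (Set.finite_Icc (-(N : ℤ)) N).subset
      intro n hn
      simp only [Set.mem_ofPred_eq] at hn
      constructor <;> omega
    have : ∀ᶠ y in 𝓝 x, ∀ n ∈ {n : ℤ | n.natAbs < N}, y n = x n := by
      rw [Filter.eventually_all_finite hfin]
      intro n _
      have : Tendsto (fun y : ℤ → Option S => y n) (𝓝 x) (𝓝 (x n)) :=
        (continuous_apply n).tendsto x
      rw [nhds_discrete (Option S)] at this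
      exact this.eventually (p := fun b => b = x n) (by simp)
    filter_upwards [this] with y hy
    refine lt_of_le_of_lt ?_ hN
    apply dist_le_of_agree
    intro n hn
    exact hy n hn
  refine ⟨?_⟩
  have h := isCompact_univ.image hc
  have h2 : (Cfg.mk '' (Set.univ : Set (ℤ → Option S))) = Set.univ := by
    apply Set.eq_univ_of_forall
    intro x
    exact ⟨x.toFun, trivial, rfl⟩
  rwa [h2] at h

end Cfg

end Pool.Agent.Weiss
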