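import Mathlib

/-!
Definitions for the growth rates of separated and spanning sets of a homeomorphism
of a compact metric space.
-/

namespace Pool.Agent.Weiss

open Filter Topology

/-- The dynamical distance `D_T(x,y) = max_{0 ≤ t ≤ T-1} D(F^t x, F^t y)`. -/
noncomputable def dynDist {X : Type} [MetricSpace X] (F : X ≃ₜ X) (T : ℕ) (x y : X) : ℝ :=
  ⨆ t : Fin T, dist (F^[(t : ℕ)] x) (F^[(t : ℕ)] y)

/-- A finite set is `ε`-separated for `D_T` if distinct points have `D_T`-distance at least `ε`. -/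
def IsSep {X : Type} [MetricSpace X] (F : X ≃ₜ X) (ε : ℝ) (T : ℕ) (S : Finset X) : Prop :=
  ∀ x ∈ S, ∀ y ∈ S, x ≠ y → ε ≤ dynDist F T x y

/-- A finite set is `ε`-spanning for `D_T` if every point is at `D_T`-distance less than `ε`
from it. -/
def IsSpan {X : Type} [MetricSpace X] (F : X ≃ₜ X) (ε : ℝ) (T : ℕ) (S : Finset X) : Prop :=
  ∀ x : X, ∃ s ∈ S, dynDist F T s x < ε

/-- The largest size of an `ε`-separated set for `D_T`. -/
noncomputable def sep {X : Type} [MetricSpace X] (F : X ≃ₜ X) (ε : ℝ) (T : ℕ) : ℕ :=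
  sSup {n : ℕ | ∃ S : Finset X, IsSep F ε T S ∧ S.card = n}

/-- The smallest size of an `ε`-spanning set for `D_T`. -/
noncomputable def span {X : Type} [MetricSpace X] (F : X ≃ₜ X) (ε : ℝ) (T : ℕ) : ℕ :=
  sInf {n : ℕ | ∃ S : Finset X, IsSpan F ε T S ∧ S.card = n}

/-- The rate `(ln N_T) / T` of a sequence of natural numbers, as an extended real number. -/
noncomputable def rate (N : ℕ → ℕ) (T : ℕ) : EReal := ((Real.log (N T) / T : ℝ) : EReal)

/-- `liminf_T (ln sep(X,ε,D_T))/T`. -/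
noncomputable def sepLower {X : Type} [MetricSpace X] (F : X ≃ₜ X) (ε : ℝ) : EReal :=
  liminf (rate (sep F ε)) atTop

/-- `limsup_T (ln sep(X,ε,D_T))/T`. -/
noncomputable def sepUpper {X : Type} [MetricSpace X] (F : X ≃ₜ X) (ε : ℝ) : EReal :=
  limsup (rate (sep F ε)) atTop

/-- `liminf_T (ln span(X,ε,D_T))/T`. -/
noncomputable def spanLower {X : Type} [MetricSpace X] (F : X ≃ₜ X) (ε : ℝ) : EReal :=
  liminf (rate (span F ε)) atTop

/-- `limsup_T (ln span(X,ε,D_T))/T`. -/
noncomputable def spanUpper {X : Type} [MetricSpace X] (F : X ≃ₜ X) (ε : ℝ) : EReal :=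
  limsup (rate (span F ε)) atTop

/-- The system has topological entropy `h`, where the entropy is the limit of
`limsup_T (ln sep(X,ε,D_T))/T` as `ε → 0+`. -/
def HasEntropy {X : Type} [MetricSpace X] (F : X ≃ₜ X) (h : EReal) : Prop :=
  Tendsto (fun ε : ℝ => sepUpper F ε) (𝓝[>] 0) (𝓝 h)

/-- Topological transitivity: some point has a dense forward orbit. -/
def IsTransitive {X : Type} [MetricSpace X] (F : X ≃ₜ X) : Prop :=
  ∃ x : X, Dense (Set.range fun n : ℕ => F^[n] x)

end Pool.Agent.Weiss
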