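import Pool.Agent.Weiss.Rank

/-!
Submultiplicativity of the number of words, and the limit of the growth rates.
-/

namespace Pool.Agent.Weiss

open Filter Topology

variable {S : Type} [Far S] (Y : Sub S)

theorem cx_add [Finite S] (m n : ℕ) : Y.cx (m + n) ≤ Y.cx m * Y.cx n := by
  unfold Sub.cx
  rw [← Set.ncard_prod]
  refine Set.ncard_le_ncard_of_injOn (fun w => (w.take m, w.drop m)) ?_ ?_
    ((Y.lang_finite m).prod (Y.lang_finite n))
  · rintro w ⟨y, hy, rfl⟩
    rw [win_append]
    refine ⟨?_, ?_⟩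
    · have h1 : (win y.toFun 0 m ++ win y.toFun (0 + m) n).take m = win y.toFun 0 m := by
        conv_lhs => rw [← win_length y.toFun 0 m]
        simp
      simp only [h1]
      exact Y.win_mem_lang hy _ _
    · have h1 : (win y.toFun 0 m ++ win y.toFun (0 + m) n).drop m = win y.toFun (0 + m) n := by
        rw [List.drop_append_of_le_length (by simp)]
        simp
      simp only [h1]
      exact Y.win_mem_lang hy _ _
  · intro w _ w' _ h
    simp only [Prod.mk.injEq] at h
    rw [← List.take_append_drop m w, ← List.take_append_drop m w', h.1, h.2]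

/-- If `cx T ≤ K (T+1)^2 c^T` along a sequence of times, then the rate of `cx` is at most
`log c + η` for all large times, for every `η > 0`. -/
theorem cx_limit [Fintype S] (hY : Y.carrier.Nonempty) {c K : ℕ} (hc : 1 ≤ c) (hK : 1 ≤ K)
    {T : ℕ → ℕ} (hT : Tendsto T atTop atTop)
    (h : ∀ k, Y.cx (T k) ≤ K * (T k + 1) ^ 2 * c ^ T k) :
    ∃ L : ℝ, L ≤ Real.log c ∧ Tendsto (fun n : ℕ => Real.log (Y.cx n) / n) atTop (𝓝 L) := by
  have hpos : ∀ n, (0 : ℝ) < Y.cx n := fun n => by exact_mod_cast cx_pos Y hY n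
  have hsub : Subadditive (fun n : ℕ => Real.log (Y.cx n)) := by
    intro m n
    rw [← Real.log_mul (hpos m).ne' (hpos n).ne']
    apply Real.log_le_log (hpos _)
    exact_mod_cast cx_add Y m n
  have hbdd : BddBelow (Set.range fun n : ℕ => Real.log (Y.cx n) / n) := by
    refine ⟨0, ?_⟩
    rintro _ ⟨n, rfl⟩
    exact div_nonneg (Real.log_natCast_nonneg _) (by positivity)
  have hlim := hsub.tendsto_lim hbdd
  refine ⟨hsub.lim, ?_, hlim⟩
  have h1 := liminf_rate_le hc hK hT h
  have h2 : liminf (rate Y.cx) atTop = ((hsub.lim : ℝ) : EReal) := by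
    apply Tendsto.liminf_eq
    exact (continuous_coe_real_ereal.tendsto _).comp hlim
  rw [h2, EReal.coe_le_coe_iff] at h1
  exact h1

/-- If the number of words has growth rate at most `log c` and there are `c^T` points separated at
scale `1`, then the growth rate of separated sets exists at every scale. -/
theorem sep_limit [Fintype S] (hY : Y.carrier.Nonempty) {c : ℕ} (hc : 1 ≤ c) {L : ℝ}
    (hL : L ≤ Real.log c)
    (hlim : Tendsto (fun n : ℕ => Real.log (Y.cx n) / n) atTop (𝓝 L))
    (hlow : ∀ T, c ^ T ≤ sep Y.homeo 1 T) {δ : ℝ} (hδ : 0 < δ) :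
    sepLower Y.homeo δ = sepUpper Y.homeo δ := by
  rcases le_or_gt δ 1 with h1 | h1
  · obtain ⟨N, hN⟩ := sep_le_cx Y hδ
    have hup : Tendsto (fun T : ℕ => Real.log (Y.cx (T + 2 * N)) / T) atTop (𝓝 L) := by
      have e1 : Tendsto (fun T : ℕ => Real.log (Y.cx (T + 2 * N)) / ((T + 2 * N : ℕ) : ℝ))
          atTop (𝓝 L) := hlim.comp (tendsto_add_atTop_nat (2 * N))
      have e2 : Tendsto (fun T : ℕ => 1 + 2 * N * (1 / (T : ℝ))) atTop (𝓝 (1 + 2 * N * 0)) :=
        ((tendsto_one_div_atTop_nhds_zero_nat (𝕜 := ℝ)).const_mul (2 * (N : ℝ))).const_add 1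
      have e3 := e1.mul e2
      rw [mul_zero, add_zero, mul_one] at e3
      refine e3.congr' ?_
      filter_upwards [eventually_gt_atTop 0] with T hT
      have : (T : ℝ) ≠ 0 := by positivity
      have : ((T + 2 * N : ℕ) : ℝ) ≠ 0 := by positivity
      push_cast at this ⊢
      field_simp
    have hlo : ∀ᶠ T : ℕ in atTop, Real.log c ≤ Real.log (sep Y.homeo δ T) / T := by
      filter_upwards [eventually_gt_atTop 0] with T hT
      have hT' : (0 : ℝ) < T := by exact_mod_cast hT
      rw [le_div_iff₀ hT']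
      have h2 : ((c : ℝ) ^ T) ≤ sep Y.homeo δ T := by
        exact_mod_cast (hlow T).trans (sep_anti Y hδ h1 T)
      have hc' : (0 : ℝ) < c := by exact_mod_cast hc
      have h3 := Real.log_le_log (by positivity) h2
      rw [Real.log_pow] at h3
      linarith
    have hhi : ∀ᶠ T : ℕ in atTop, Real.log (sep Y.homeo δ T) / T ≤
        Real.log (Y.cx (T + 2 * N)) / T := by
      filter_upwards with T
      apply div_le_div_of_nonneg_right _ (by positivity)
      apply Real.log_le_log
      · exact_mod_cast one_le_sep Y hY hδ T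
      · exact_mod_cast hN T
    have hLc : L = Real.log c := by
      apply le_antisymm hL
      apply ge_of_tendsto hup
      filter_upwards [hlo, hhi] with T h2 h3
      exact h2.trans h3
    rw [hLc] at hup
    have hmain : Tendsto (fun T : ℕ => Real.log (sep Y.homeo δ T) / T) atTop
        (𝓝 (Real.log c)) :=
      tendsto_of_tendsto_of_tendsto_of_le_of_le' tendsto_const_nhds hup hlo hhi
    have hE : Tendsto (rate (sep Y.homeo δ)) atTop (𝓝 ((Real.log c : ℝ) : EReal)) :=
      (continuous_coe_real_ereal.tendsto _).comp hmain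
    unfold sepLower sepUpper
    rw [hE.liminf_eq, hE.limsup_eq]
  · have hone : ∀ T, sep Y.homeo δ T = 1 := by
      intro T
      apply le_antisymm _ (one_le_sep Y hY hδ T)
      apply Y.sep_le
      intro F hF
      rw [Finset.card_le_one]
      intro x hx y hy
      by_contra hne
      have h2 := hF x hx y hy hne
      have h3 := Y.dynDist_le_one T x y
      linarith
    have hE : rate (sep Y.homeo δ) = fun _ => 0 := by
      funext T
      simp [rate, hone]
    unfold sepLower sepUpper
    rw [hE]
    simp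

/-- Spanning sets from words. -/
theorem span_le_of_words {T : ℕ} (G : Finset (List (Option S))) (hG : ∀ w ∈ G, w ∈ Y.lang T)
    (h : ∀ w ∈ Y.lang T, ∃ w' ∈ G, List.Forall₂ (fun a b => ¬ ofar a b) w' w) :
    span Y.homeo 1 T ≤ G.card := by
  classical
  have hch : ∀ w : G, ∃ y : Y.carrier, win y.1.toFun 0 T = w.1 := by
    intro w
    obtain ⟨y, hy, hw⟩ := hG w.1 w.2
    exact ⟨⟨y, hy⟩, hw⟩
  choose y hy using hch
  have hsp : IsSpan Y.homeo 1 T (Finset.univ.image y) := by
    intro x
    obtain ⟨w', hw', hn⟩ := h _ (Y.win_mem_lang x.2 0 T)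
    refine ⟨y ⟨w', hw'⟩, Finset.mem_image_of_mem _ (Finset.mem_univ _), ?_⟩
    rw [Y.dynDist_lt_one_iff]
    intro t ht
    have e : w' = win (y ⟨w', hw'⟩).1.toFun 0 T := (hy ⟨w', hw'⟩).symm
    rw [e, List.forall₂_iff_get] at hn
    have := hn.2 t (by simpa using ht) (by simpa using ht)
    simpa [win_get] using this
  refine (Y.span_le hsp).trans (Finset.card_image_le.trans ?_)
  simp

end Pool.Agent.Weiss
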