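import Mathlib

/-!
Words as lists, their factors, and the splitting of factors across long runs of the background.
-/

namespace Pool.Agent.Weiss

section general
variable {A : Type}

theorem infix_two {w x y : List A} (h : w <:+: x ++ y) :
    w <:+: x ∨ w <:+: y ∨ ∃ w1 w2, w = w1 ++ w2 ∧ w1 <:+ x ∧ w2 <+: y := by
  obtain ⟨p, q, hpq⟩ := h
  rw [List.append_assoc, List.append_eq_append_iff] at hpq
  rcases hpq with ⟨c, hc1, hc2⟩ | ⟨c, hc1, hc2⟩
  · -- x = p ++ c, w ++ q = c ++ y
    rw [List.append_eq_append_iff] at hc2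
    rcases hc2 with ⟨d, hd1, hd2⟩ | ⟨d, hd1, hd2⟩
    · -- c = w ++ d
      left
      exact ⟨p, d, by rw [hc1, hd1, List.append_assoc]⟩
    · -- w = c ++ d, y = d ++ q
      right; right
      exact ⟨c, d, hd1, ⟨p, hc1.symm⟩, ⟨q, hd2.symm⟩⟩
  · -- p = x ++ c, y = c ++ (w ++ q)
    right; left
    exact ⟨c, q, by rw [hc2, List.append_assoc]⟩

theorem infix_three {w x y z : List A} (h : w <:+: x ++ y ++ z) :
    w <:+: x ++ y ∨ w <:+: y ++ z ∨ y <:+: w := by
  rcases infix_two h with h | h | ⟨w1, w2, rfl, ⟨p, hp⟩, ⟨q, hq⟩⟩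
  · left; exact h
  · right; left; exact h.trans (List.suffix_append y z).isInfix
  · -- w1 suffix of x ++ y, w2 is an initial segment of z
    rw [List.append_eq_append_iff] at hp
    rcases hp with ⟨c, hc1, hc2⟩ | ⟨c, hc1, hc2⟩
    · -- x = p ++ c, w1 = c ++ y
      right; right
      exact ⟨c, w2, by rw [hc2]⟩
    · -- p = x ++ c, y = c ++ w1
      right; left
      exact ⟨c, q, by rw [hc2, ← hq]; simp⟩

/-- A factor that is not longer than the middle block misses one of the ends. -/
theorem infix_split {w x y z : List A} (h : w <:+: x ++ y ++ z) (hw : w.length ≤ y.length) :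
    w <:+: x ++ y ∨ w <:+: y ++ z := by
  rcases infix_three h with h | h | h
  · left; exact h
  · right; exact h
  · have : y = w := h.eq_of_length (le_antisymm h.length_le hw)
    left
    rw [this]
    exact (List.suffix_append x w).isInfix

theorem forall2_append_right {B : Type} {R : A → B → Prop} {w : List A} {x y : List B}
    (h : List.Forall₂ R w (x ++ y)) :
    ∃ w1 w2, w = w1 ++ w2 ∧ List.Forall₂ R w1 x ∧ List.Forall₂ R w2 y := by
  refine ⟨w.take x.length, w.drop x.length, (List.take_append_drop _ _).symm, ?_, ?_⟩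
  · exact List.forall₂_take_append _ _ _ h
  · exact List.forall₂_drop_append _ _ _ h

/-- The number of factors of a given length. -/
theorem exists_finset_infix [DecidableEq A] (l : List A) (T : ℕ) :
    ∃ F : Finset (List A), F.card ≤ l.length + 1 ∧ ∀ w, w.length = T → w <:+: l → w ∈ F := by
  refine ⟨(Finset.range (l.length + 1)).image (fun i => (l.drop i).take T), ?_, ?_⟩
  · exact Finset.card_image_le.trans (by simp)
  · rintro w hw ⟨p, q, hpq⟩
    rw [Finset.mem_image]
    refine ⟨p.length, ?_, ?_⟩
    · rw [Finset.mem_range, ← hpq]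
      simp only [List.length_append]
      omega
    · rw [← hpq, List.append_assoc, List.drop_left, ← hw, List.take_left]

end general

section zeros
variable {S : Type}

/-- A run of the background symbol. -/
def z (n : ℕ) : List (Option S) := List.replicate n none

@[simp] theorem z_length (n : ℕ) : (z n : List (Option S)).length = n := by simp [z]

theorem z_add (m n : ℕ) : (z (m + n) : List (Option S)) = z m ++ z n := by
  unfold z
  exact List.replicate_add m n none

theorem z_infix {m n : ℕ} (h : m ≤ n) : (z m : List (Option S)) <:+: z n := by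
  obtain ⟨k, rfl⟩ := Nat.exists_eq_add_of_le h
  rw [z_add]
  exact (List.prefix_append _ _).isInfix

theorem z_suffix {m n : ℕ} (h : m ≤ n) : (z m : List (Option S)) <:+ z n := by
  obtain ⟨k, rfl⟩ := Nat.exists_eq_add_of_le h
  rw [add_comm, z_add]
  exact List.suffix_append _ _

theorem z_pre {m n : ℕ} (h : m ≤ n) : (z m : List (Option S)) <+: z n := by
  obtain ⟨k, rfl⟩ := Nat.exists_eq_add_of_le h
  rw [z_add]
  exact List.prefix_append _ _

theorem eq_z_of_infix {w : List (Option S)} {n : ℕ} (h : w <:+: z n) : w = z w.length := by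
  obtain ⟨p, q, hpq⟩ := h
  unfold z at hpq ⊢
  rw [List.eq_replicate_iff] at hpq
  rw [List.eq_replicate_iff]
  refine ⟨rfl, fun b hb => hpq.2 b ?_⟩
  simp [hb]

/-- Hypothesis that a word `w` splits at runs of length `b`. -/
def Splits (w : List (Option S)) (b a : ℕ) : Prop :=
  ∀ x y : List (Option S), w <:+: x ++ z b ++ y → w <:+: x ++ z a ∨ w <:+: z a ++ y

theorem splits_of_length {w : List (Option S)} {b a : ℕ} (hw : w.length ≤ a) (hab : a ≤ b) :
    Splits w b a := by
  intro x y h
  obtain ⟨k, rfl⟩ := Nat.exists_eq_add_of_le hab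
  rw [z_add] at h
  have h1 : w <:+: x ++ z a ++ (z k ++ y) := by simpa [List.append_assoc] using h
  rcases infix_split h1 (by simpa using hw) with h2 | h2
  · left; exact h2
  · have h3 : w <:+: z k ++ z a ++ y := by
      rw [← List.append_assoc, ← z_add, add_comm, z_add] at h2
      exact h2
    rcases infix_split h3 (by simpa using hw) with h4 | h4
    · left
      rw [← z_add] at h4
      rw [eq_z_of_infix h4]
      exact (z_infix hw).trans (List.suffix_append _ _).isInfix
    · right; exact h4

theorem splits_of_free {w : List (Option S)} {b : ℕ} (hw : ¬ z b <:+: w) : Splits w b b := by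
  intro x y h
  rcases infix_three h with h | h | h
  · left; exact h
  · right; exact h
  · exact (hw h).elim

theorem infix_flatMap {w : List (Option S)} {b a : ℕ} (H : Splits w b a) {I : Type}
    (f : I → List (Option S)) (Ps : List I) : ∀ (l0 l3 : List (Option S)),
    w <:+: l0 ++ Ps.flatMap (fun p => z b ++ f p) ++ z b ++ l3 →
    w <:+: l0 ++ z a ∨ (∃ p ∈ Ps, w <:+: z a ++ f p ++ z a) ∨ w <:+: z a ++ l3 := by
  induction Ps with
  | nil =>
    intro l0 l3 h
    rcases H l0 l3 (by simpa using h) with h | h
    · left; exact h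
    · right; right; exact h
  | cons p Ps ih =>
    intro l0 l3 h
    have h1 : w <:+: l0 ++ z b ++
        (f p ++ Ps.flatMap (fun p => z b ++ f p) ++ z b ++ l3) := by
      simpa [List.flatMap_cons, List.append_assoc] using h
    rcases H _ _ h1 with h2 | h2
    · left; exact h2
    · have h3 : w <:+: (z a ++ f p) ++ Ps.flatMap (fun p => z b ++ f p) ++ z b ++ l3 := by
        simpa [List.append_assoc] using h2
      rcases ih _ _ h3 with h4 | ⟨q, hq, h4⟩ | h4
      · right; left; exact ⟨p, by simp, h4⟩
      · right; left; exact ⟨q, by simp [hq], h4⟩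
      · right; right; exact h4

theorem infix_zeros_left {w q : List (Option S)} {a : ℕ} (h : w <:+: z a ++ q) :
    ∃ b v, w = z b ++ v ∧ v <:+: q ∧ (b = 0 ∨ v <+: q) := by
  rcases infix_two h with h | h | ⟨w1, w2, rfl, h1, h2⟩
  · exact ⟨w.length, [], by rw [List.append_nil]; exact eq_z_of_infix h, List.nil_infix,
      Or.inr List.nil_prefix⟩
  · exact ⟨0, w, by simp [z], h, Or.inl rfl⟩
  · exact ⟨w1.length, w2, by rw [← eq_z_of_infix h1.isInfix], h2.isInfix, Or.inr h2⟩

theorem infix_zeros_right {w q : List (Option S)} {a : ℕ} (h : w <:+: q ++ z a) :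
    ∃ b v, w = v ++ z b ∧ v <:+: q ∧ (b = 0 ∨ v <:+ q) := by
  rcases infix_two h with h | h | ⟨w1, w2, rfl, h1, h2⟩
  · exact ⟨0, w, by simp [z], h, Or.inl rfl⟩
  · exact ⟨w.length, [], by rw [List.nil_append]; exact eq_z_of_infix h, List.nil_infix,
      Or.inr List.nil_suffix⟩
  · exact ⟨w2.length, w1, by rw [← eq_z_of_infix h2.isInfix], h1.isInfix, Or.inr h1⟩

end zeros

end Pool.Agent.Weiss
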