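import Pool.Agent.Weiss.Windows

/-!
Lower bounds for spanning and separated sets at the island lengths, and bounds for families of
pairwise far words.
-/

namespace Pool.Agent.Weiss

section lower
variable {S : Type} [Far S] {P : ℕ → List (List S × List S)}

/-- Words that are nowhere far. -/
def NearW (u v : List S) : Prop := List.Forall₂ (fun a b => ¬ Far.far a b) u v

theorem near_of_map {v : List S} {w : List (Option S)}
    (h : List.Forall₂ (fun a b => ¬ ofar a b) w (v.map some)) :
    ∃ u : List S, w = u.map some ∧ NearW u v := by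
  induction v generalizing w with
  | nil =>
    have : w = [] := by simpa using h
    exact ⟨[], by simp [this], List.Forall₂.nil⟩
  | cons b v ih =>
    rw [List.map_cons, List.forall₂_cons_right_iff] at h
    obtain ⟨a, w', ha, hw, rfl⟩ := h
    obtain ⟨u, rfl, hu⟩ := ih hw
    cases a with
    | none => exact (ha trivial).elim
    | some a => exact ⟨a :: u, rfl, List.Forall₂.cons ha hu⟩

theorem z_of_near {n : ℕ} {w : List (Option S)}
    (h : List.Forall₂ (fun a b => ¬ ofar a b) w (z n)) : w = z n := by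
  induction n generalizing w with
  | zero => simpa [z] using h
  | succ n ih =>
    have e : (z (n + 1) : List (Option S)) = none :: z n := rfl
    rw [e, List.forall₂_cons_right_iff] at h
    obtain ⟨a, w', ha, hw, rfl⟩ := h
    rw [e, ← ih hw]
    cases a with
    | none => rfl
    | some a => exact (ha trivial).elim

theorem near_isl {g : ℕ} {p : List S × List S} {w : List (Option S)}
    (h : List.Forall₂ (fun a b => ¬ ofar a b) w (isl g p)) :
    ∃ c : List S × List S, w = isl g c ∧ NearW c.1 p.1 ∧ NearW c.2 p.2 := by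
  obtain ⟨w1, w2, rfl, h1, h2⟩ := forall2_append_right h
  obtain ⟨w3, w4, rfl, h3, h4⟩ := forall2_append_right h1
  obtain ⟨u, rfl, hu⟩ := near_of_map h3
  obtain ⟨v, rfl, hv⟩ := near_of_map h2
  rw [z_of_near h4]
  exact ⟨(u, v), rfl, hu, hv⟩

theorem forall2_win {x y : Cfg S} {T : ℕ} (h : ∀ t : ℕ, t < T → ¬ ofar (x t) (y t)) :
    List.Forall₂ (fun a b => ¬ ofar a b) (win x.toFun 0 T) (win y.toFun 0 T) := by
  rw [List.forall₂_iff_get]
  refine ⟨by simp, ?_⟩
  intro i h1 h2
  simp only [List.get_eq_getElem, win_get]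
  have := h i (by simpa using h1)
  simpa using this

variable [Finite S]

theorem card_le_span (hP : PLen P) (hne : ∀ m, P m ≠ []) (k : ℕ) {U : Type} [Fintype U]
    (pr : U → List S × List S) (hpr : ∀ u, pr u ∈ P (mm P k))
    (hinj : ∀ c ∈ P (mm P k), ∀ u u' : U, NearW c.1 (pr u).1 → NearW c.2 (pr u).2 →
      NearW c.1 (pr u').1 → NearW c.2 (pr u').2 → u = u') :
    Fintype.card U ≤ span (XX P).homeo 1 (2 * mm P k + gg P k) := by
  have hT : ∀ u, (isl (gg P k) (pr u)).length = 2 * mm P k + gg P k := by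
    intro u
    rw [isl_length, (hP _ _ (hpr u)).1, (hP _ _ (hpr u)).2]; ring
  have hy : ∀ u, ∃ y : (XX P).carrier, win y.1.toFun 0 (2 * mm P k + gg P k) =
      isl (gg P k) (pr u) := by
    intro u
    have h1 : isl (gg P k) (pr u) <:+: B P (k + 1) :=
      ((List.suffix_append _ _).isInfix).trans (isl_infix P (hpr u))
    obtain ⟨y, hy⟩ := exists_point P h1
    rw [hT u] at hy
    exact ⟨y, hy⟩
  choose y hy using hy
  apply (XX P).le_span one_pos
  intro Q hQ
  have hs : ∀ u, ∃ s ∈ Q, dynDist (XX P).homeo (2 * mm P k + gg P k) s (y u) < 1 :=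
    fun u => hQ (y u)
  choose s hsQ hs using hs
  have key : ∀ u, ∃ c ∈ P (mm P k),
      win (s u).1.toFun 0 (2 * mm P k + gg P k) = isl (gg P k) c ∧
        NearW c.1 (pr u).1 ∧ NearW c.2 (pr u).2 := by
    intro u
    have h1 := forall2_win ((XX P).dynDist_lt_one_iff.mp (hs u))
    rw [hy u] at h1
    obtain ⟨c, hc, hc1, hc2⟩ := near_isl h1
    refine ⟨c, ?_, hc, hc1, hc2⟩
    obtain ⟨j, hj⟩ := (s u).2 0 (2 * mm P k + gg P k)
    rw [hc] at hj
    have l1 : c.1.length = mm P k := by rw [hc1.length_eq, (hP _ _ (hpr u)).1]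
    have l2 : c.2.length = mm P k := by rw [hc2.length_eq, (hP _ _ (hpr u)).2]
    exact recognition hP hne l1 l2 hj
  have hinj' : Function.Injective s := by
    intro u u' huu
    obtain ⟨c, hc, hw, h1, h2⟩ := key u
    obtain ⟨c', hc', hw', h1', h2'⟩ := key u'
    rw [← huu, hw] at hw'
    have hcc := map_some_z_inj (by rw [(hP _ _ hc).1, (hP _ _ hc').1]) hw'
    rw [← hcc.1] at h1'
    rw [← hcc.2] at h2'
    exact hinj c hc u u' h1 h2 h1' h2'
  rw [← Finset.card_univ]
  exact Finset.card_le_card_of_injOn s (fun u _ => hsQ u) hinj'.injOn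

end lower

section far
variable {S : Type} [Far S]

/-- Words that are far at some place. -/
def FarW (w w' : List (Option S)) : Prop :=
  ∃ (i : ℕ) (h : i < w.length) (h' : i < w'.length), ofar w[i] w'[i]

/-- Finite families of pairwise far words in `C` have at most `n` members. -/
def FarBd (C : Set (List (Option S))) (n : ℕ) : Prop :=
  ∀ F : Finset (List (Option S)), (∀ w ∈ F, w ∈ C) →
    (∀ w ∈ F, ∀ w' ∈ F, w ≠ w' → FarW w w') → F.card ≤ n

theorem FarBd.mono {C D : Set (List (Option S))} {n : ℕ} (h : FarBd D n) (hCD : C ⊆ D) :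
    FarBd C n := fun F h1 h2 => h F (fun w hw => hCD (h1 w hw)) h2

theorem FarBd.mono_right {C : Set (List (Option S))} {m n : ℕ} (h : FarBd C m) (hmn : m ≤ n) :
    FarBd C n := fun F h1 h2 => (h F h1 h2).trans hmn

theorem FarBd.union {C D : Set (List (Option S))} {m n : ℕ} (h1 : FarBd C m) (h2 : FarBd D n) :
    FarBd (C ∪ D) (m + n) := by
  classical
  intro F hF hfar
  have hsub : F ⊆ F.filter (· ∈ C) ∪ F.filter (· ∈ D) := by
    intro w hw
    rcases hF w hw with h | h <;> simp [hw, h]
  calc F.card ≤ (F.filter (· ∈ C) ∪ F.filter (· ∈ D)).card := Finset.card_le_card hsub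
    _ ≤ (F.filter (· ∈ C)).card + (F.filter (· ∈ D)).card := Finset.card_union_le _ _
    _ ≤ m + n := by
      apply Nat.add_le_add
      · exact h1 _ (fun w hw => (Finset.mem_filter.mp hw).2)
          (fun w hw w' hw' => hfar w (Finset.mem_filter.mp hw).1 w' (Finset.mem_filter.mp hw').1)
      · exact h2 _ (fun w hw => (Finset.mem_filter.mp hw).2)
          (fun w hw w' hw' => hfar w (Finset.mem_filter.mp hw).1 w' (Finset.mem_filter.mp hw').1)

theorem FarBd.biUnion {n : ℕ} (C : ℕ → Set (List (Option S))) (N : ℕ)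
    (h : ∀ i < N, FarBd (C i) n) : FarBd {w | ∃ i < N, w ∈ C i} (N * n) := by
  induction N with
  | zero =>
    intro F hF _
    have : F = ∅ := by
      apply Finset.eq_empty_of_forall_notMem
      intro w hw
      obtain ⟨i, hi, _⟩ := hF w hw
      omega
    simp [this]
  | succ N ih =>
    have h1 := (ih (fun i hi => h i (by omega))).union (h N (by omega))
    refine (h1.mono ?_).mono_right (le_of_eq (by ring))
    rintro w ⟨i, hi, hw⟩
    rcases Nat.lt_succ_iff_lt_or_eq.mp hi with h2 | rfl
    · left; exact ⟨i, h2, hw⟩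
    · right; exact hw

theorem FarBd.of_infix (l : List (Option S)) (T : ℕ) :
    FarBd {w | w.length = T ∧ w <:+: l} (l.length + 1) := by
  classical
  intro F hF _
  obtain ⟨G, hG, hmem⟩ := exists_finset_infix l T
  refine le_trans (Finset.card_le_card ?_) hG
  intro w hw
  exact hmem w (hF w hw).1 (hF w hw).2

/-- Separated sets are bounded by families of pairwise far words. -/
theorem sep_le_of_farBd (Y : Sub S) {T n : ℕ} (h : FarBd (Y.lang T) n) :
    sep Y.homeo 1 T ≤ n := by
  classical
  apply Y.sep_le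
  intro F hF
  have hinj : Set.InjOn (fun x : Y.carrier => win x.1.toFun 0 T) F := by
    intro x hx y hy hxy
    by_contra hne
    obtain ⟨t, ht, hfar⟩ := Y.one_le_dynDist_iff.mp (hF x hx y hy hne)
    have h1 := (win_eq_iff.mp hxy) t ht
    rw [zero_add] at h1
    rw [h1] at hfar
    exact ofar_irrefl _ hfar
  rw [← Finset.card_image_of_injOn hinj]
  apply h
  · intro w hw
    obtain ⟨x, _, rfl⟩ := Finset.mem_image.mp hw
    exact Y.win_mem_lang x.2 0 T
  · intro w hw w' hw' hne
    obtain ⟨x, hx, rfl⟩ := Finset.mem_image.mp hw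
    obtain ⟨y, hy, rfl⟩ := Finset.mem_image.mp hw'
    have hxy : x ≠ y := by rintro rfl; exact hne rfl
    obtain ⟨t, ht, hfar⟩ := Y.one_le_dynDist_iff.mp (hF x hx y hy hxy)
    refine ⟨t, by simpa using ht, by simpa using ht, ?_⟩
    rw [win_get, win_get]
    simpa using hfar

end far

end Pool.Agent.Weiss
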