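import Pool.Agent.Weiss.Rank

/-!
The first question: both growth rates oscillate.
-/

namespace Pool.Agent.Weiss.Q1

open Filter Topology Pool.Agent.Weiss

/-- The 3-element subsets of a 10-element set. -/
abbrev V : Type := {s : Finset (Fin 10) // s.card = 3}

theorem card_V : Fintype.card V = 120 := by
  rw [Fintype.card_finset_len, Fintype.card_fin]
  decide

/-- Two copies of the 3-element subsets. -/
abbrev S : Type := V × Bool

instance : Far S where
  far x y := x.2 ≠ y.2 ∨ (x.2 = false ∧ y.2 = false ∧ Even (x.1.1 ∩ y.1.1).card) ∨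
    (x.2 = true ∧ y.2 = true ∧ (x.1.1 ∩ y.1.1).card = 1)
  symm x y h := by
    rw [Finset.inter_comm]
    tauto
  irrefl x h := by
    rcases h with h | ⟨_, _, h⟩ | ⟨_, _, h⟩
    · exact h rfl
    · rw [Finset.inter_self, x.1.2] at h; exact absurd h (by decide)
    · rw [Finset.inter_self, x.1.2] at h; omega

theorem far_iff_false {A B : V} : Far.far ((A, false) : S) (B, false) ↔ Even (A.1 ∩ B.1).card := by
  change (_ ∨ _ ∨ _) ↔ _
  simp

theorem far_iff_true {A B : V} : Far.far ((A, true) : S) (B, true) ↔ (A.1 ∩ B.1).card = 1 := by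
  change (_ ∨ _ ∨ _) ↔ _
  simp

/-- The word of a sequence of sets in one of the two copies. -/
def wd {m : ℕ} (b : Bool) (f : Fin m → V) : List S := List.ofFn (fun i => (f i, b))

/-- The pairs used in the islands. -/
noncomputable def P (m : ℕ) : List (List S × List S) :=
  (Finset.univ : Finset (Fin m → V)).toList.map (fun f => (wd false f, wd true f))

theorem mem_P {m : ℕ} {p : List S × List S} :
    p ∈ P m ↔ ∃ f : Fin m → V, p = (wd false f, wd true f) := by
  unfold P
  simp only [List.mem_map, Finset.mem_toList, Finset.mem_univ, true_and]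
  exact ⟨fun ⟨f, hf⟩ => ⟨f, hf.symm⟩, fun ⟨f, hf⟩ => ⟨f, hf.symm⟩⟩

theorem hP : PLen P := by
  intro m p hp
  obtain ⟨f, rfl⟩ := mem_P.mp hp
  simp [wd]

theorem exists_V : Nonempty V := by
  have : 0 < Fintype.card V := by rw [card_V]; norm_num
  exact Fintype.card_pos_iff.mp this

theorem hne (m : ℕ) : P m ≠ [] := by
  obtain ⟨v⟩ := exists_V
  exact List.ne_nil_of_mem (mem_P.mpr ⟨fun _ => v, rfl⟩)

theorem card_inter_cases {A B : V} (h1 : ¬ Even (A.1 ∩ B.1).card) (h2 : (A.1 ∩ B.1).card ≠ 1) :
    A = B := by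
  have h3 : (A.1 ∩ B.1).card ≤ 3 :=
    (Finset.card_le_card Finset.inter_subset_left).trans A.2.le
  have h4 : (A.1 ∩ B.1).card = 3 := by
    rw [Nat.even_iff] at h1
    omega
  apply Subtype.ext
  have h5 : A.1 ∩ B.1 = A.1 :=
    Finset.eq_of_subset_of_card_le Finset.inter_subset_left (by rw [h4, A.2])
  have h6 : A.1 ∩ B.1 = B.1 :=
    Finset.eq_of_subset_of_card_le Finset.inter_subset_right (by rw [h4, B.2])
  rw [← h5, h6]

theorem near_wd {m : ℕ} {b : Bool} {f g : Fin m → V} (h : NearW (wd b f) (wd b g)) (i : Fin m) :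
    ¬ Far.far ((f i, b) : S) (g i, b) := by
  unfold NearW at h
  rw [List.forall₂_iff_get] at h
  have := h.2 i (by simp [wd]) (by simp [wd])
  simpa [wd] using this

theorem lower (k : ℕ) :
    120 ^ mm P k ≤ span (XX P).homeo 1 (2 * mm P k + gg P k) := by
  have h := card_le_span hP hne k (U := Fin (mm P k) → V) (fun f => (wd false f, wd true f))
    (fun f => mem_P.mpr ⟨f, rfl⟩) (by
      intro c hc u u' h1 h2 h3 h4
      obtain ⟨f, rfl⟩ := mem_P.mp hc
      have e1 : f = u := by
        funext i
        exact card_inter_cases (fun h => near_wd h1 i (far_iff_false.mpr h))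
          (fun h => near_wd h2 i (far_iff_true.mpr h))
      have e2 : f = u' := by
        funext i
        exact card_inter_cases (fun h => near_wd h3 i (far_iff_false.mpr h))
          (fun h => near_wd h4 i (far_iff_true.mpr h))
      rw [← e1, e2])
  rwa [Fintype.card_fun, card_V, Fintype.card_fin] at h

/-- Indicator vectors. -/
def ind (F : Type) [Zero F] [One F] (A : V) (j : Fin 10) : F := if j ∈ A.1 then 1 else 0

theorem sum_ind (F : Type) [Field F] (A B : V) :
    ∑ j, ind F A j * ind F B j = ((A.1 ∩ B.1).card : F) := by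
  have h : ∀ j, ind F A j * ind F B j = if j ∈ A.1 ∩ B.1 then 1 else 0 := by
    intro j
    unfold ind
    by_cases h1 : j ∈ A.1 <;> by_cases h2 : j ∈ B.1 <;> simp [h1, h2]
  simp only [h]
  rw [Finset.sum_ite_mem, Finset.univ_inter]
  simp

theorem sum_ind_one (F : Type) [Field F] (A : V) : ∑ j, ind F A j = 3 := by
  unfold ind
  rw [Finset.sum_ite_mem, Finset.univ_inter]
  simp [A.2]

theorem rank_false (c : ℕ) (G : Finset (Fin c → V))
    (h : ∀ u ∈ G, ∀ u' ∈ G, u ≠ u' → ∃ i, Far.far ((u i, false) : S) (u' i, false)) :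
    G.card ≤ 10 ^ c := by
  have : Fact (Nat.Prime 2) := ⟨Nat.prime_two⟩
  apply rank_bound (F := ZMod 2) (ind (ZMod 2)) (ind (ZMod 2))
  · intro v
    rw [sum_ind, Finset.inter_self, v.2]
    intro h0
    rw [ZMod.natCast_eq_zero_iff] at h0
    omega
  · intro u hu u' hu' hne
    obtain ⟨i, hi⟩ := h u hu u' hu' hne
    refine ⟨i, ?_⟩
    rw [sum_ind, ZMod.natCast_eq_zero_iff]
    exact (far_iff_false.mp hi).two_dvd

theorem rank_true (c : ℕ) (G : Finset (Fin c → V))
    (h : ∀ u ∈ G, ∀ u' ∈ G, u ≠ u' → ∃ i, Far.far ((u i, true) : S) (u' i, true)) :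
    G.card ≤ 10 ^ c := by
  have key : ∀ A B : V, ∑ j, ind ℚ A j * (ind ℚ B j - 1 / 3) = ((A.1 ∩ B.1).card : ℚ) - 1 := by
    intro A B
    simp only [mul_sub, Finset.sum_sub_distrib, ← Finset.sum_mul]
    rw [sum_ind, sum_ind_one]
    norm_num
  apply rank_bound (F := ℚ) (ind ℚ) (fun B j => ind ℚ B j - 1 / 3)
  · intro v
    rw [key, Finset.inter_self, v.2]
    norm_num
  · intro u hu u' hu' hne
    obtain ⟨i, hi⟩ := h u hu u' hu' hne
    refine ⟨i, ?_⟩
    rw [key, far_iff_true.mp hi]
    norm_num

/-- One-part words with the run on the left. -/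
def eL (b c : ℕ) (fl : Bool) (f : Fin c → V) : List (Option S) :=
  z b ++ List.ofFn (fun i => some (f i, fl))

/-- One-part words with the run on the right. -/
def eR (b c : ℕ) (fl : Bool) (f : Fin c → V) : List (Option S) :=
  List.ofFn (fun i => some (f i, fl)) ++ z b

theorem farBd_eL (b c : ℕ) (fl : Bool) : FarBd (Set.range (eL b c fl)) (10 ^ c) := by
  cases fl
  · exact farBd_range (R := fun A B => Far.far ((A, false) : S) (B, false))
      (fun f f' h => (FarW.append_left h).ofFn) (rank_false c)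
  · exact farBd_range (R := fun A B => Far.far ((A, true) : S) (B, true))
      (fun f f' h => (FarW.append_left h).ofFn) (rank_true c)

theorem farBd_eR (b c : ℕ) (fl : Bool) : FarBd (Set.range (eR b c fl)) (10 ^ c) := by
  cases fl
  · exact farBd_range (R := fun A B => Far.far ((A, false) : S) (B, false))
      (fun f f' h => (FarW.append_right (by simp) h).ofFn) (rank_false c)
  · exact farBd_range (R := fun A B => Far.far ((A, true) : S) (B, true))
      (fun f f' h => (FarW.append_right (by simp) h).ofFn) (rank_true c)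

theorem part_infix {m c : ℕ} {fl : Bool} {f : Fin m → V} {v : List S} (h : v <:+: wd fl f)
    (hc : v.length = c) :
    ∃ g : Fin c → V, v.map some = List.ofFn (fun i => some (g i, fl)) := by
  subst hc
  refine ⟨fun i => (v.get i).1, ?_⟩
  apply List.ext_getElem (by simp)
  intro i h1 h2
  rw [List.getElem_map, List.getElem_ofFn]
  have hi : i < v.length := by simpa using h1
  have hmem : v[i] ∈ wd fl f := h.subset (List.getElem_mem hi)
  obtain ⟨j, hj⟩ := (List.mem_ofFn' _ _).mp hmem
  have h3 : v[i].2 = fl := by rw [← hj]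
  simp only [List.get_eq_getElem]
  congr 1
  exact Prod.ext rfl h3

theorem lang_sub (k : ℕ) : (XX P).lang (gg P k) ⊆
    {w | w.length = gg P k ∧ w <:+: z (gg P k) ++ B P k ++ z (gg P k)} ∪
    ({w | ∃ b < gg P k + 1, w ∈ Set.range (eL b (gg P k - b) false)} ∪
     {w | ∃ b < gg P k + 1, w ∈ Set.range (eL b (gg P k - b) true)} ∪
     {w | ∃ b < gg P k + 1, w ∈ Set.range (eR b (gg P k - b) false)} ∪
     {w | ∃ b < gg P k + 1, w ∈ Set.range (eR b (gg P k - b) true)}) := by
  intro w hw
  obtain ⟨hlen, j, hj⟩ := (mem_lang_iff P).mp hw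
  rcases window_gg hP hlen hj with h | ⟨i, p, hp, q, hq, b, v, hv, h⟩
  · left; exact ⟨hlen, h⟩
  · right
    obtain ⟨f, rfl⟩ := mem_P.mp hp
    have hq' : ∃ fl : Bool, q = wd fl f := by
      rcases hq with rfl | rfl
      · exact ⟨false, rfl⟩
      · exact ⟨true, rfl⟩
    obtain ⟨fl, rfl⟩ := hq'
    have hlv : v.length = gg P k - b := by
      rcases h with h | h <;>
      · rw [h] at hlen
        simp only [List.length_append, z_length, List.length_map] at hlen
        omega
    have hb : b < gg P k + 1 := by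
      rcases h with h | h <;>
      · rw [h] at hlen
        simp only [List.length_append, z_length, List.length_map] at hlen
        omega
    obtain ⟨g, hg⟩ := part_infix hv hlv
    rw [hg] at h
    rcases h with rfl | rfl
    · cases fl
      · left; left; left; exact ⟨b, hb, g, rfl⟩
      · left; left; right; exact ⟨b, hb, g, rfl⟩
    · cases fl
      · left; right; exact ⟨b, hb, g, rfl⟩
      · right; exact ⟨b, hb, g, rfl⟩

theorem farBd_lang (k : ℕ) : FarBd ((XX P).lang (gg P k))
    (8 * (gg P k + 1) ^ 2 * 10 ^ gg P k) := by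
  set T := gg P k with hT
  have hb : ∀ b, 10 ^ (T - b) ≤ 10 ^ T := fun b => Nat.pow_le_pow_right (by norm_num) (by omega)
  have h1 := FarBd.biUnion (fun b => Set.range (eL b (T - b) false)) (T + 1)
    (fun b _ => (farBd_eL b (T - b) false).mono_right (hb b))
  have h2 := FarBd.biUnion (fun b => Set.range (eL b (T - b) true)) (T + 1)
    (fun b _ => (farBd_eL b (T - b) true).mono_right (hb b))
  have h3 := FarBd.biUnion (fun b => Set.range (eR b (T - b) false)) (T + 1)
    (fun b _ => (farBd_eR b (T - b) false).mono_right (hb b))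
  have h4 := FarBd.biUnion (fun b => Set.range (eR b (T - b) true)) (T + 1)
    (fun b _ => (farBd_eR b (T - b) true).mono_right (hb b))
  have h0 := FarBd.of_infix (z T ++ B P k ++ z T) T
  have h := (h0.union (((h1.union h2).union h3).union h4)).mono (lang_sub k)
  refine h.mono_right ?_
  simp only [List.length_append, z_length]
  have hB := B_length_lt_gg P k
  have hp : 1 ≤ 10 ^ T := Nat.one_le_pow _ _ (by norm_num)
  have e1 : T + (B P k).length + T + 1 ≤ 4 * (T + 1) * 10 ^ T := by nlinarith
  have e2 : (T + 1) * 10 ^ T ≤ (T + 1) ^ 2 * 10 ^ T :=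
    Nat.mul_le_mul_right _ (by nlinarith)
  nlinarith

/-- The first question has a positive answer. -/
theorem main : ∃ (X : Type) (_ : MetricSpace X) (_ : CompactSpace X) (F : X ≃ₜ X),
    IsTransitive F ∧ (∃ h : ℝ, HasEntropy F h) ∧
      ∃ ε : ℝ, 0 < ε ∧ spanLower F ε < spanUpper F ε ∧ sepLower F ε < sepUpper F ε := by
  have hcomp : CompactSpace (XX P).carrier :=
    isCompact_iff_compactSpace.mp (XX P).closed.isCompact
  refine ⟨(XX P).carrier, inferInstance, hcomp, (XX P).homeo, isTransitive P,
    finite_entropy (XX P) ⟨x0 P, x0_mem P⟩, 1, one_pos, ?_⟩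
  have hlow : sepLower (XX P).homeo 1 ≤ ((Real.log (10 : ℕ) : ℝ) : EReal) := by
    refine liminf_rate_le (K := 8) (by norm_num) (by norm_num) (tendsto_gg P) ?_
    intro k
    exact sep_le_of_farBd _ (farBd_lang k)
  have hup : ((1 / 2 * Real.log (120 : ℕ) : ℝ) : EReal) ≤ spanUpper (XX P).homeo 1 :=
    le_limsup_rate (q := 120) (by norm_num) (tendsto_island P) (tendsto_half P) lower
  have hlt : ((Real.log (10 : ℕ) : ℝ) : EReal) < ((1 / 2 * Real.log (120 : ℕ) : ℝ) : EReal) := by
    rw [EReal.coe_lt_coe_iff]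
    have h1 : (2 : ℝ) * Real.log (10 : ℝ) = Real.log 100 := by
      rw [show (100 : ℝ) = (10 : ℝ) ^ 2 by norm_num, Real.log_pow]
      norm_num
    have h2 : Real.log 100 < Real.log (120 : ℝ) :=
      Real.log_lt_log (by norm_num) (by norm_num)
    simp only [Nat.cast_ofNat]
    linarith
  have hmid := hlt.trans_le hup
  exact ⟨((spanLower_le_sepLower P one_pos).trans hlow).trans_lt hmid,
    hlow.trans_lt (hmid.trans_le (spanUpper_le_sepUpper P one_pos))⟩

end Pool.Agent.Weiss.Q1
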