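import Pool.Agent.Weiss.Fekete

/-!
The second question: the growth rate of spanning sets oscillates while the growth rate of
separated sets exists at every scale.
-/

namespace Pool.Agent.Weiss.Q2

open Filter Topology Pool.Agent.Weiss

/-- Two letters and a star. -/
abbrev S : Type := Option Bool

instance : Far S where
  far x y := ∃ a b : Bool, x = some a ∧ y = some b ∧ a ≠ b
  symm x y := by
    rintro ⟨a, b, rfl, rfl, h⟩
    exact ⟨b, a, rfl, rfl, h.symm⟩
  irrefl x := by
    rintro ⟨a, b, h1, h2, h⟩
    rw [h1] at h2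
    exact h (Option.some_injective _ h2)

theorem not_far_star (x : S) : ¬ Far.far (none : S) x := by
  rintro ⟨a, b, h, _⟩
  simp at h

theorem eq_of_not_far {a b : Bool} (h : ¬ Far.far (some a : S) (some b)) : a = b := by
  by_contra hne
  exact h ⟨a, b, rfl, rfl, hne⟩

/-- The word of a sequence of letters. -/
def wd {m : ℕ} (f : Fin m → Bool) : List S := List.ofFn (fun i => some (f i))

/-- The pairs used in the islands. -/
noncomputable def P (m : ℕ) : List (List S × List S) :=
  (List.replicate m none, List.replicate m (some true)) ::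
    (Finset.univ : Finset (Fin m → Bool)).toList.map (fun f => (wd f, wd f))

theorem mem_P {m : ℕ} {p : List S × List S} :
    p ∈ P m ↔ p = (List.replicate m none, List.replicate m (some true)) ∨
      ∃ f : Fin m → Bool, p = (wd f, wd f) := by
  unfold P
  simp only [List.mem_cons, List.mem_map, Finset.mem_toList, Finset.mem_univ, true_and]
  constructor
  · rintro (h | ⟨f, hf⟩)
    · left; exact h
    · right; exact ⟨f, hf.symm⟩
  · rintro (h | ⟨f, hf⟩)
    · left; exact h
    · right; exact ⟨f, hf.symm⟩

theorem hP : PLen P := by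
  intro m p hp
  rcases mem_P.mp hp with rfl | ⟨f, rfl⟩
  · simp
  · simp [wd]

theorem hne (m : ℕ) : P m ≠ [] := by simp [P]

theorem near_wd {m : ℕ} {f g : Fin m → Bool} (h : NearW (wd f) (wd g)) : f = g := by
  funext i
  unfold NearW at h
  rw [List.forall₂_iff_get] at h
  have := h.2 i (by simp [wd]) (by simp [wd])
  apply eq_of_not_far
  simpa [wd] using this

theorem rep_eq_wd (m : ℕ) : List.replicate m (some true : S) = wd (fun _ : Fin m => true) := by
  unfold wd
  simp [List.ofFn_const]

theorem lower (k : ℕ) :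
    2 ^ mm P k ≤ span (XX P).homeo 1 (2 * mm P k + gg P k) := by
  have h := card_le_span hP hne k (U := Fin (mm P k) → Bool) (fun f => (wd f, wd f))
    (fun f => mem_P.mpr (Or.inr ⟨f, rfl⟩)) (by
      intro c hc u u' h1 h2 h3 h4
      have hc2 : ∃ f : Fin (mm P k) → Bool, c.2 = wd f := by
        rcases mem_P.mp hc with rfl | ⟨f, rfl⟩
        · exact ⟨_, rep_eq_wd _⟩
        · exact ⟨f, rfl⟩
      obtain ⟨f, hf⟩ := hc2
      rw [hf] at h2 h4
      rw [← near_wd h2, ← near_wd h4])
  simpa using h

/-- A part of an island is a word of letters or a run of stars. -/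
theorem part_cases {m : ℕ} {p : List S × List S} {q : List S} (hp : p ∈ P m)
    (hq : q = p.1 ∨ q = p.2) : q = List.replicate m none ∨ ∃ f : Fin m → Bool, q = wd f := by
  rcases mem_P.mp hp with rfl | ⟨f, rfl⟩
  · rcases hq with rfl | rfl
    · left; rfl
    · right; exact ⟨_, rep_eq_wd _⟩
  · rcases hq with rfl | rfl <;> exact Or.inr ⟨f, rfl⟩

/-- A word of letters of length `c` read from a function on a larger set. -/
def lw (T c : ℕ) (f : Fin T → Bool) : List (Option S) :=
  (List.ofFn (fun i => some (some (f i)))).take c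

/-- A word of stars. -/
def sw (c : ℕ) : List (Option S) := List.replicate c (some none)

theorem infix_part {m T c : ℕ} {q v : List S} (hq : q = List.replicate m none ∨
    ∃ f : Fin m → Bool, q = wd f) (hv : v <:+: q) (hc : v.length = c) (hcT : c ≤ T) :
    v.map some = sw c ∨ ∃ f : Fin T → Bool, v.map some = lw T c f := by
  rcases hq with rfl | ⟨f, rfl⟩
  · left
    obtain ⟨a, b, hab⟩ := hv
    have : v = List.replicate c none := by
      rw [List.eq_replicate_iff] at hab ⊢
      refine ⟨hc, fun x hx => hab.2 x ?_⟩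
      simp [hx]
    rw [this]
    simp [sw]
  · right
    have hmem : ∀ x ∈ v, ∃ b : Bool, x = some b := by
      intro x hx
      obtain ⟨j, hj⟩ := (List.mem_ofFn' _ _).mp (hv.subset hx)
      exact ⟨f j, hj.symm⟩
    refine ⟨fun i => if h : (i : ℕ) < v.length then
      (hmem v[(i : ℕ)] (List.getElem_mem h)).choose else true, ?_⟩
    apply List.ext_getElem
    · simp [lw, hc, hcT]
    · intro i h1 h2
      have hi : i < v.length := by simpa using h1
      rw [List.getElem_map]
      simp only [lw, List.getElem_take, List.getElem_ofFn]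
      rw [dif_pos hi]
      congr 1
      exact (hmem v[i] (List.getElem_mem hi)).choose_spec

theorem onePart_cases {T : ℕ} {w : List (Option S)} (hw : w.length = T) (h : OnePart P w) :
    ∃ b < T + 1, (w = z b ++ sw (T - b)) ∨ (w = sw (T - b) ++ z b) ∨
      ∃ f : Fin T → Bool, (w = z b ++ lw T (T - b) f) ∨ (w = lw T (T - b) f ++ z b) := by
  obtain ⟨i, p, hp, q, hq, b, v, hv, h⟩ := h
  have hlv : v.length = T - b := by
    rcases h with h | h <;>
    · rw [h] at hw
      simp only [List.length_append, z_length, List.length_map] at hw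
      omega
  have hb : b < T + 1 := by
    rcases h with h | h <;>
    · rw [h] at hw
      simp only [List.length_append, z_length, List.length_map] at hw
      omega
  refine ⟨b, hb, ?_⟩
  rcases infix_part (part_cases hp hq) hv hlv (Nat.sub_le T b) with h1 | ⟨f, h1⟩
  · rw [h1] at h
    rcases h with h | h
    · left; exact h
    · right; left; exact h
  · rw [h1] at h
    rcases h with h | h
    · right; right; exact ⟨f, Or.inl h⟩
    · right; right; exact ⟨f, Or.inr h⟩

theorem star_mem : ∀ m, ((List.replicate m none, List.replicate m (some true)) :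
    List S × List S) ∈ P m := fun m => mem_P.mpr (Or.inl rfl)

theorem sw_add (m n : ℕ) : sw (m + n) = sw m ++ sw n := by
  unfold sw
  exact List.replicate_add m n (some none)

theorem sw_eq (m : ℕ) : (List.replicate m (none : S)).map some = sw m := by simp [sw]

/-- Star words with a run on the left occur. -/
theorem zs_mem {k b : ℕ} (hb : b < gg P k + 1) :
    z b ++ sw (gg P k - b) ∈ (XX P).lang (gg P k) := by
  rw [mem_lang_iff]
  refine ⟨by simp [sw]; omega, k + 1, ?_⟩
  refine List.IsInfix.trans ?_ (isl_infix P (star_mem (mm P k)))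
  obtain ⟨r, hr⟩ := z_suffix (S := S) hb.le
  have hg := gg_lt_mm P k
  obtain ⟨e, he⟩ : ∃ e, mm P k = (gg P k - b) + e := ⟨mm P k - (gg P k - b), by omega⟩
  refine ⟨r, sw e ++ z (gg P k) ++ (List.replicate (mm P k) (some true)).map some, ?_⟩
  have hsw : sw (mm P k) = sw (gg P k - b) ++ sw e := by
    rw [← sw_add, ← he]
  unfold isl
  simp only
  rw [sw_eq, ← hr, hsw]
  simp only [List.append_assoc]

/-- Star words with a run on the right occur. -/
theorem sz_mem {k b : ℕ} (hb : b < gg P k + 1) :
    sw (gg P k - b) ++ z b ∈ (XX P).lang (gg P k) := by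
  rw [mem_lang_iff]
  refine ⟨by simp [sw]; omega, k + 1, ?_⟩
  refine List.IsInfix.trans ?_ (isl_infix P (star_mem (mm P k)))
  obtain ⟨r, hr⟩ := z_pre (S := S) (show b ≤ gg P k by omega)
  have hg := gg_lt_mm P k
  obtain ⟨e, he⟩ : ∃ e, mm P k = e + (gg P k - b) := ⟨mm P k - (gg P k - b), by omega⟩
  refine ⟨z (gg P k + 1) ++ sw e, r ++ (List.replicate (mm P k) (some true)).map some, ?_⟩
  have hsw : sw (mm P k) = sw e ++ sw (gg P k - b) := by
    rw [← sw_add, ← he]
  unfold isl
  simp only
  rw [sw_eq, hsw]
  rw [← hr]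
  simp only [List.append_assoc]

theorem near_sw {c : ℕ} {w : List (Option S)} (hw : w.length = c) (h : ∀ x ∈ w, x ≠ none) :
    List.Forall₂ (fun a b => ¬ ofar a b) (sw c) w := by
  rw [List.forall₂_iff_get]
  refine ⟨by simp [sw, hw], ?_⟩
  intro i h1 h2
  have h3 : (sw c).get ⟨i, h1⟩ = some none := by simp [sw]
  rw [h3]
  have h4 := h _ (List.get_mem w ⟨i, h2⟩)
  cases h5 : w.get ⟨i, h2⟩ with
  | none => exact (h4 h5).elim
  | some x => exact not_far_star x

theorem near_z (b : ℕ) : List.Forall₂ (fun a b : Option S => ¬ ofar a b) (z b) (z b) := by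
  rw [List.forall₂_iff_get]
  exact ⟨rfl, fun i h1 h2 => ofar_irrefl _⟩

theorem forall2_append {R : Option S → Option S → Prop} {a b c d : List (Option S)}
    (h1 : List.Forall₂ R a b) (h2 : List.Forall₂ R c d) : List.Forall₂ R (a ++ c) (b ++ d) :=
  List.rel_append h1 h2

theorem onePart_near {T : ℕ} {w : List (Option S)} (hw : w.length = T) (h : OnePart P w) :
    ∃ b < T + 1, List.Forall₂ (fun a b => ¬ ofar a b) (z b ++ sw (T - b)) w ∨
      List.Forall₂ (fun a b => ¬ ofar a b) (sw (T - b) ++ z b) w := by
  obtain ⟨i, p, hp, q, hq, b, v, hv, h⟩ := h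
  have hlv : v.length = T - b := by
    rcases h with h | h <;>
    · rw [h] at hw
      simp only [List.length_append, z_length, List.length_map] at hw
      omega
  have hb : b < T + 1 := by
    rcases h with h | h <;>
    · rw [h] at hw
      simp only [List.length_append, z_length, List.length_map] at hw
      omega
  have hn : List.Forall₂ (fun a b => ¬ ofar a b) (sw (T - b)) (v.map some) :=
    near_sw (by simpa using hlv) (by
      intro x hx
      obtain ⟨y, _, rfl⟩ := List.mem_map.mp hx
      simp)
  refine ⟨b, hb, ?_⟩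
  rcases h with rfl | rfl
  · left; exact forall2_append (near_z b) hn
  · right; exact forall2_append hn (near_z b)

theorem upper_span (k : ℕ) : span (XX P).homeo 1 (gg P k) ≤ 8 * (gg P k + 1) ^ 2 * 1 ^ gg P k := by
  classical
  set T := gg P k with hT
  obtain ⟨F, hFc, hF⟩ := exists_finset_infix (z T ++ B P k ++ z T : List (Option S)) T
  let G1 := F.filter (fun w => w ∈ (XX P).lang T)
  let G2 := (Finset.range (T + 1)).image (fun b => z b ++ sw (T - b))
  let G3 := (Finset.range (T + 1)).image (fun b => sw (T - b) ++ z b)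
  have h := span_le_of_words (XX P) (T := T) (G1 ∪ G2 ∪ G3) (by
      intro w hw
      rcases Finset.mem_union.mp hw with hw | hw
      · rcases Finset.mem_union.mp hw with hw | hw
        · exact (Finset.mem_filter.mp hw).2
        · obtain ⟨b, hb, rfl⟩ := Finset.mem_image.mp hw
          exact zs_mem (Finset.mem_range.mp hb)
      · obtain ⟨b, hb, rfl⟩ := Finset.mem_image.mp hw
        exact sz_mem (Finset.mem_range.mp hb)) (by
      intro w hw
      obtain ⟨hlen, j, hj⟩ := (mem_lang_iff P).mp hw
      rcases window_gg hP hlen hj with h | h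
      · refine ⟨w, ?_, ?_⟩
        · apply Finset.mem_union_left
          apply Finset.mem_union_left
          exact Finset.mem_filter.mpr ⟨hF w hlen h, hw⟩
        · rw [List.forall₂_iff_get]
          exact ⟨rfl, fun i h1 h2 => ofar_irrefl _⟩
      · obtain ⟨b, hb, h | h⟩ := onePart_near hlen h
        · refine ⟨_, ?_, h⟩
          apply Finset.mem_union_left
          apply Finset.mem_union_right
          exact Finset.mem_image_of_mem _ (Finset.mem_range.mpr hb)
        · refine ⟨_, ?_, h⟩
          apply Finset.mem_union_right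
          exact Finset.mem_image_of_mem _ (Finset.mem_range.mpr hb))
  have c1 : G1.card ≤ (z T ++ B P k ++ z T : List (Option S)).length + 1 :=
    (Finset.card_filter_le _ _).trans hFc
  have c2 : G2.card ≤ T + 1 := Finset.card_image_le.trans (by simp)
  have c3 : G3.card ≤ T + 1 := Finset.card_image_le.trans (by simp)
  have c4 : (G1 ∪ G2 ∪ G3).card ≤ G1.card + G2.card + G3.card :=
    (Finset.card_union_le _ _).trans (Nat.add_le_add_right (Finset.card_union_le _ _) _)
  simp only [List.length_append, z_length] at c1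
  have hB := B_length_lt_gg P k
  rw [one_pow, mul_one]
  nlinarith

theorem upper_cx (k : ℕ) : (XX P).cx (gg P k) ≤ 8 * (gg P k + 1) ^ 2 * 2 ^ gg P k := by
  classical
  set T := gg P k with hT
  obtain ⟨F, hFc, hF⟩ := exists_finset_infix (z T ++ B P k ++ z T : List (Option S)) T
  let G2 := (Finset.range (T + 1)).image (fun b => z b ++ sw (T - b))
  let G3 := (Finset.range (T + 1)).image (fun b => sw (T - b) ++ z b)
  let G4 := ((Finset.range (T + 1)) ×ˢ (Finset.univ : Finset (Fin T → Bool))).image
    (fun x => z x.1 ++ lw T (T - x.1) x.2)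
  let G5 := ((Finset.range (T + 1)) ×ˢ (Finset.univ : Finset (Fin T → Bool))).image
    (fun x => lw T (T - x.1) x.2 ++ z x.1)
  have hsub : (XX P).lang T ⊆ ((F ∪ G2 ∪ G3 ∪ G4 ∪ G5 : Finset _) : Set (List (Option S))) := by
    intro w hw
    obtain ⟨hlen, j, hj⟩ := (mem_lang_iff P).mp hw
    simp only [Finset.coe_union, Set.mem_union, Finset.mem_coe]
    rcases window_gg hP hlen hj with h | h
    · left; left; left; left; exact hF w hlen h
    · obtain ⟨b, hb, h | h | ⟨f, h | h⟩⟩ := onePart_cases hlen h
      · left; left; left; right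
        exact Finset.mem_image.mpr ⟨b, Finset.mem_range.mpr hb, h.symm⟩
      · left; left; right
        exact Finset.mem_image.mpr ⟨b, Finset.mem_range.mpr hb, h.symm⟩
      · left; right
        exact Finset.mem_image.mpr ⟨(b, f), by simp; omega, h.symm⟩
      · right
        exact Finset.mem_image.mpr ⟨(b, f), by simp; omega, h.symm⟩
  have h1 : (XX P).cx T ≤ (F ∪ G2 ∪ G3 ∪ G4 ∪ G5).card := by
    have := Set.ncard_le_ncard hsub (Finset.finite_toSet _)
    rwa [Set.ncard_coe_finset] at this
  have c2 : G2.card ≤ T + 1 := Finset.card_image_le.trans (by simp)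
  have c3 : G3.card ≤ T + 1 := Finset.card_image_le.trans (by simp)
  have c4 : G4.card ≤ (T + 1) * 2 ^ T := Finset.card_image_le.trans (by simp)
  have c5 : G5.card ≤ (T + 1) * 2 ^ T := Finset.card_image_le.trans (by simp)
  have cu : (F ∪ G2 ∪ G3 ∪ G4 ∪ G5).card ≤ F.card + G2.card + G3.card + G4.card + G5.card := by
    have a1 := Finset.card_union_le (F ∪ G2 ∪ G3 ∪ G4) G5
    have a2 := Finset.card_union_le (F ∪ G2 ∪ G3) G4
    have a3 := Finset.card_union_le (F ∪ G2) G3
    have a4 := Finset.card_union_le F G2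
    omega
  simp only [List.length_append, z_length] at hFc
  have hB := B_length_lt_gg P k
  have hp : 1 ≤ 2 ^ T := Nat.one_le_pow _ _ (by norm_num)
  have e1 : F.card + G2.card + G3.card ≤ 6 * (T + 1) * 2 ^ T := by nlinarith
  have e2 : (T + 1) * 2 ^ T ≤ (T + 1) ^ 2 * 2 ^ T := Nat.mul_le_mul_right _ (by nlinarith)
  have e3 : G4.card + G5.card ≤ 2 * ((T + 1) * 2 ^ T) := by omega
  have e4 : 6 * (T + 1) * 2 ^ T = 6 * ((T + 1) * 2 ^ T) := by ring
  have e5 : 8 * (T + 1) ^ 2 * 2 ^ T = 8 * ((T + 1) ^ 2 * 2 ^ T) := by ring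
  omega

theorem wd_infix {T k : ℕ} (hk : T ≤ mm P k) (f : Fin T → Bool) :
    (wd f).map some <:+: B P (k + 1) := by
  let g : Fin (mm P k) → Bool := fun i => if h : (i : ℕ) < T then f ⟨i, h⟩ else true
  have h1 : (wd f).map some <+: (wd g).map some := by
    rw [List.prefix_iff_eq_take]
    apply List.ext_getElem
    · simp [wd, hk]
    · intro i h1 h2
      have hi : i < T := by simpa [wd] using h1
      simp [wd, g, hi]
  have h2 : (wd g).map some <:+: isl (gg P k) (wd g, wd g) := by
    unfold isl
    rw [List.append_assoc]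
    exact (List.prefix_append _ _).isInfix
  exact h1.isInfix.trans (h2.trans (((List.suffix_append _ _).isInfix).trans
    (isl_infix P (mem_P.mpr (Or.inr ⟨g, rfl⟩)))))

theorem lower_sep (T : ℕ) : 2 ^ T ≤ sep (XX P).homeo 1 T := by
  classical
  have hk : T ≤ mm P T := by
    have h1 := gg_lt_mm P T
    have h2 := lt_gg P T
    omega
  have hy : ∀ f : Fin T → Bool, ∃ y : (XX P).carrier,
      win y.1.toFun 0 T = (wd f).map some := by
    intro f
    obtain ⟨y, hy⟩ := exists_point P (wd_infix hk f)
    have : ((wd f).map some).length = T := by simp [wd]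
    rw [this] at hy
    exact ⟨y, hy⟩
  choose y hy using hy
  have hsep : ∀ f g, f ≠ g → 1 ≤ dynDist (XX P).homeo T (y f) (y g) := by
    intro f g hfg
    rw [(XX P).one_le_dynDist_iff]
    obtain ⟨i, hi⟩ := Function.ne_iff.mp hfg
    refine ⟨i, i.2, ?_⟩
    have h1 := (win_eq_iff_list (by simp [wd])).mp (hy f) i i.2
    have h2 := (win_eq_iff_list (by simp [wd])).mp (hy g) i i.2
    rw [zero_add] at h1 h2
    rw [h1, h2]
    simp only [wd, List.getElem_map, List.getElem_ofFn]
    exact ⟨f i, g i, rfl, rfl, hi⟩
  have hinj : Function.Injective y := by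
    intro f g h
    by_contra hne
    have := hsep f g hne
    rw [h, (XX P).dynDist_self] at this
    linarith
  have hS : IsSep (XX P).homeo 1 T (Finset.univ.image y) := by
    intro a ha b hb hab
    obtain ⟨f, _, rfl⟩ := Finset.mem_image.mp ha
    obtain ⟨g, _, rfl⟩ := Finset.mem_image.mp hb
    exact hsep f g (fun h => hab (by rw [h]))
  have := (XX P).le_sep one_pos hS
  rw [Finset.card_image_of_injective _ hinj] at this
  simpa using this

/-- The second question has a positive answer. -/
theorem main : ∃ (X : Type) (_ : MetricSpace X) (_ : CompactSpace X) (F : X ≃ₜ X),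
    IsTransitive F ∧ (∃ h : ℝ, HasEntropy F h) ∧
      (∃ ε : ℝ, 0 < ε ∧ spanLower F ε < spanUpper F ε) ∧
      ∀ δ : ℝ, 0 < δ → sepLower F δ = sepUpper F δ := by
  have hcomp : CompactSpace (XX P).carrier :=
    isCompact_iff_compactSpace.mp (XX P).closed.isCompact
  have hY : (XX P).carrier.Nonempty := ⟨x0 P, x0_mem P⟩
  refine ⟨(XX P).carrier, inferInstance, hcomp, (XX P).homeo, isTransitive P,
    finite_entropy (XX P) hY, ⟨1, one_pos, ?_⟩, ?_⟩
  · have hlow : spanLower (XX P).homeo 1 ≤ ((Real.log (1 : ℕ) : ℝ) : EReal) :=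
      liminf_rate_le (K := 8) (by norm_num) (by norm_num) (tendsto_gg P) upper_span
    have hup : ((1 / 2 * Real.log (2 : ℕ) : ℝ) : EReal) ≤ spanUpper (XX P).homeo 1 :=
      le_limsup_rate (q := 2) (by norm_num) (tendsto_island P) (tendsto_half P) lower
    refine hlow.trans_lt (lt_of_lt_of_le ?_ hup)
    rw [EReal.coe_lt_coe_iff]
    have h2 : 0 < Real.log (2 : ℝ) := Real.log_pos (by norm_num)
    simp only [Nat.cast_one, Real.log_one, Nat.cast_ofNat]
    linarith
  · intro δ hδ
    obtain ⟨L, hL, hlim⟩ := cx_limit (XX P) hY (c := 2) (K := 8) (by norm_num) (by norm_num)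
      (tendsto_gg P) upper_cx
    exact sep_limit (XX P) hY (c := 2) (by norm_num) hL hlim lower_sep hδ

end Pool.Agent.Weiss.Q2
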