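import Pool.Agent.Weiss.Rates

/-!
The rank bound for families of pairwise far words, and reduction of words to functions.
-/

namespace Pool.Agent.Weiss

open Finset in
/-- If `⟨p u, q v⟩` vanishes on far pairs and never on the diagonal, then families of words of
length `c` that are pairwise far at some place have at most `n ^ c` members. -/
theorem rank_bound {V F : Type} [Field F] {n c : ℕ} (p q : V → Fin n → F)
    (G : Finset (Fin c → V)) (hdiag : ∀ v, ∑ j, p v j * q v j ≠ 0)
    (hfar : ∀ u ∈ G, ∀ u' ∈ G, u ≠ u' → ∃ i, ∑ j, p (u i) j * q (u' i) j = 0) :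
    G.card ≤ n ^ c := by
  classical
  let X : G → (Fin c → Fin n) → F := fun u J => ∏ i, p (u.1 i) (J i)
  have key : ∀ u u' : Fin c → V, ∑ J : Fin c → Fin n, (∏ i, p (u i) (J i)) * (∏ i, q (u' i) (J i))
      = ∏ i, ∑ j, p (u i) j * q (u' i) j := by
    intro u u'
    rw [Finset.prod_univ_sum]
    simp only [Fintype.piFinset_univ]
    refine Finset.sum_congr rfl fun J _ => ?_
    rw [Finset.prod_mul_distrib]
  have hli : LinearIndependent F X := by
    rw [Fintype.linearIndependent_iff]
    intro a ha u'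
    have h1 : ∑ J : Fin c → Fin n, (∑ u : G, a u * X u J) * (∏ i, q (u'.1 i) (J i)) = 0 := by
      apply Finset.sum_eq_zero
      intro J _
      have := congrFun ha J
      simp only [Finset.sum_apply, Pi.smul_apply, smul_eq_mul, Pi.zero_apply] at this
      rw [this, zero_mul]
    have h2 : ∑ J : Fin c → Fin n, (∑ u : G, a u * X u J) * (∏ i, q (u'.1 i) (J i)) =
        ∑ u : G, a u * ∏ i, ∑ j, p (u.1 i) j * q (u'.1 i) j := by
      simp only [Finset.sum_mul]
      rw [Finset.sum_comm]
      refine Finset.sum_congr rfl fun u _ => ?_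
      rw [← key, Finset.mul_sum]
      refine Finset.sum_congr rfl fun J _ => ?_
      simp only [X]
      ring
    rw [h2, Finset.sum_eq_single u'] at h1
    · rcases mul_eq_zero.mp h1 with h | h
      · exact h
      · exact (Finset.prod_ne_zero_iff.mpr (fun i _ => hdiag (u'.1 i)) h).elim
    · intro u _ hu
      obtain ⟨i, hi⟩ := hfar u.1 u.2 u'.1 u'.2 (fun h => hu (Subtype.ext h))
      rw [Finset.prod_eq_zero (Finset.mem_univ i) hi, mul_zero]
    · intro h; exact (h (Finset.mem_univ _)).elim
  have h := hli.fintype_card_le_finrank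
  rw [Module.finrank_fintype_fun_eq_card] at h
  simpa using h

section
variable {S : Type} [Far S]

theorem FarW.append_left {x w w' : List (Option S)} (h : FarW (x ++ w) (x ++ w')) :
    FarW w w' := by
  obtain ⟨i, h1, h2, h3⟩ := h
  by_cases hi : i < x.length
  · rw [List.getElem_append_left hi, List.getElem_append_left hi] at h3
    exact (ofar_irrefl _ h3).elim
  · push Not at hi
    rw [List.getElem_append_right hi, List.getElem_append_right hi] at h3
    exact ⟨i - x.length, _, _, h3⟩

theorem FarW.append_right {x w w' : List (Option S)} (hl : w.length = w'.length)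
    (h : FarW (w ++ x) (w' ++ x)) : FarW w w' := by
  obtain ⟨i, h1, h2, h3⟩ := h
  by_cases hi : i < w.length
  · rw [List.getElem_append_left hi, List.getElem_append_left (hl ▸ hi)] at h3
    exact ⟨i, _, _, h3⟩
  · push Not at hi
    rw [List.getElem_append_right hi, List.getElem_append_right (hl ▸ hi)] at h3
    simp only [hl] at h3
    exact (ofar_irrefl _ h3).elim

theorem FarW.ofFn {c : ℕ} {f g : Fin c → Option S} (h : FarW (List.ofFn f) (List.ofFn g)) :
    ∃ i, ofar (f i) (g i) := by
  obtain ⟨i, h1, h2, h3⟩ := h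
  rw [List.getElem_ofFn, List.getElem_ofFn] at h3
  exact ⟨_, h3⟩

theorem farBd_range {V : Type} {c N : ℕ} {e : (Fin c → V) → List (Option S)}
    {R : V → V → Prop} (he : ∀ f f', FarW (e f) (e f') → ∃ i, R (f i) (f' i))
    (hR : ∀ G : Finset (Fin c → V),
      (∀ u ∈ G, ∀ u' ∈ G, u ≠ u' → ∃ i, R (u i) (u' i)) → G.card ≤ N) :
    FarBd (Set.range e) N := by
  classical
  intro F hF hfar
  rcases F.eq_empty_or_nonempty with rfl | hne
  · simp
  obtain ⟨w0, hw0⟩ := hne
  have : Nonempty (Fin c → V) := ⟨(hF w0 hw0).choose⟩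
  choose! f hf using hF
  have hinj : Set.InjOn f F := by
    intro w hw w' hw' h
    rw [← hf w hw, ← hf w' hw', h]
  rw [← Finset.card_image_of_injOn hinj]
  apply hR
  intro u hu u' hu' hne
  obtain ⟨w, hw, rfl⟩ := Finset.mem_image.mp hu
  obtain ⟨w', hw', rfl⟩ := Finset.mem_image.mp hu'
  apply he
  rw [hf w hw, hf w' hw']
  exact hfar w hw w' hw' (fun h => hne (by rw [h]))

end

section gen
variable {S : Type} [Far S] (P : ℕ → List (List S × List S)) [Finite S]

theorem spanLower_le_sepLower {δ : ℝ} (hδ : 0 < δ) :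
    spanLower (XX P).homeo δ ≤ sepLower (XX P).homeo δ := by
  refine Filter.liminf_le_liminf (Filter.Eventually.of_forall fun T => ?_)
  have hne : 1 ≤ span (XX P).homeo δ T := by
    apply (XX P).le_span hδ
    intro F hF
    obtain ⟨s, hs, _⟩ := hF ⟨x0 P, x0_mem P⟩
    exact Finset.card_pos.mpr ⟨s, hs⟩
  exact rate_mono hne ((XX P).span_le_sep hδ T)

theorem spanUpper_le_sepUpper {δ : ℝ} (hδ : 0 < δ) :
    spanUpper (XX P).homeo δ ≤ sepUpper (XX P).homeo δ := by
  refine Filter.limsup_le_limsup (Filter.Eventually.of_forall fun T => ?_)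
  have hne : 1 ≤ span (XX P).homeo δ T := by
    apply (XX P).le_span hδ
    intro F hF
    obtain ⟨s, hs, _⟩ := hF ⟨x0 P, x0_mem P⟩
    exact Finset.card_pos.mpr ⟨s, hs⟩
  exact rate_mono hne ((XX P).span_le_sep hδ T)

end gen

end Pool.Agent.Weiss
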