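import Pool.Agent.Weiss.Lower

/-!
Growth rates: lower and upper limits along subsequences, language complexity, finite entropy.
-/

namespace Pool.Agent.Weiss

open Filter Topology

theorem tendsto_log_div : Tendsto (fun n : ℕ => Real.log ((n : ℝ) + 1) / n) atTop (𝓝 0) := by
  have h1 : Tendsto (fun x : ℝ => Real.log x / x) atTop (𝓝 0) := by
    have := Real.isLittleO_log_id_atTop
    exact this.tendsto_div_nhds_zero
  have h2 : Tendsto (fun n : ℕ => Real.log ((n : ℝ) + 1) / ((n : ℝ) + 1)) atTop (𝓝 0) :=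
    h1.comp (tendsto_atTop_add_const_right _ _ tendsto_natCast_atTop_atTop)
  have h3 : Tendsto (fun n : ℕ => ((n : ℝ) + 1) / n) atTop (𝓝 1) := by
    have : Tendsto (fun n : ℕ => 1 + 1 / (n : ℝ)) atTop (𝓝 (1 + 0)) :=
      tendsto_const_nhds.add tendsto_one_div_atTop_nhds_zero_nat
    rw [add_zero] at this
    refine this.congr' ?_
    filter_upwards [eventually_gt_atTop 0] with n hn
    have : (n : ℝ) ≠ 0 := by positivity
    field_simp
  have h4 := h2.mul h3
  rw [zero_mul] at h4
  refine h4.congr' ?_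
  filter_upwards [eventually_gt_atTop 0] with n hn
  have h5 : (n : ℝ) ≠ 0 := by positivity
  have h6 : (n : ℝ) + 1 ≠ 0 := by positivity
  field_simp

/-- Upper bound of the lower growth rate along a sequence of times. -/
theorem liminf_rate_le {N : ℕ → ℕ} {c K : ℕ} (hc : 1 ≤ c) (hK : 1 ≤ K) {T : ℕ → ℕ}
    (hT : Tendsto T atTop atTop) (h : ∀ k, N (T k) ≤ K * (T k + 1) ^ 2 * c ^ T k) :
    liminf (rate N) atTop ≤ ((Real.log c : ℝ) : EReal) := by
  have h1 : liminf (rate N) atTop ≤ liminf (rate N ∘ T) atTop := by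
    have : liminf (rate N) atTop ≤ liminf (rate N) (map T atTop) :=
      liminf_le_liminf_of_le hT
    exact this
  refine h1.trans ?_
  have hc' : (1 : ℝ) ≤ c := by exact_mod_cast hc
  have hK' : (1 : ℝ) ≤ K := by exact_mod_cast hK
  let f : ℕ → ℝ := fun n => Real.log K * (1 / (n : ℝ)) + 2 * (Real.log ((n : ℝ) + 1) / n) +
    Real.log c
  have hf : Tendsto f atTop (𝓝 (Real.log c)) := by
    have := ((tendsto_one_div_atTop_nhds_zero_nat (𝕜 := ℝ)).const_mul (Real.log K)).add
      (tendsto_log_div.const_mul 2)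
    have := this.add_const (Real.log c)
    simpa [f] using this
  have hle : ∀ᶠ k in atTop, (rate N ∘ T) k ≤ ((f (T k) : ℝ) : EReal) := by
    filter_upwards [hT.eventually (eventually_gt_atTop 0)] with k hk
    simp only [Function.comp, rate]
    rw [EReal.coe_le_coe_iff]
    have hk' : (0 : ℝ) < T k := by exact_mod_cast hk
    have hb : (1 : ℝ) ≤ K * ((T k : ℝ) + 1) ^ 2 * (c : ℝ) ^ T k := by
      have h1 : (1 : ℝ) ≤ ((T k : ℝ) + 1) ^ 2 := one_le_pow₀ (by linarith)
      have h2 : (1 : ℝ) ≤ (c : ℝ) ^ T k := one_le_pow₀ hc'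
      have := one_le_mul_of_one_le_of_one_le hK' h1
      exact one_le_mul_of_one_le_of_one_le this h2
    have hlog : Real.log (N (T k)) ≤ Real.log (K * ((T k : ℝ) + 1) ^ 2 * (c : ℝ) ^ T k) := by
      rcases Nat.eq_zero_or_pos (N (T k)) with h0 | h0
      · rw [h0]; simp only [Nat.cast_zero, Real.log_zero]; exact Real.log_nonneg hb
      · apply Real.log_le_log (by exact_mod_cast h0)
        exact_mod_cast h k
    have hexp : Real.log (K * ((T k : ℝ) + 1) ^ 2 * (c : ℝ) ^ T k) =
        Real.log K + 2 * Real.log ((T k : ℝ) + 1) + T k * Real.log c := by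
      rw [Real.log_mul (by positivity) (by positivity), Real.log_mul (by positivity) (by positivity),
        Real.log_pow, Real.log_pow]
      push_cast; ring
    have : f (T k) = (Real.log K + 2 * Real.log ((T k : ℝ) + 1) + T k * Real.log c) / T k := by
      simp only [f]; field_simp
    rw [this, ← hexp]
    exact div_le_div_of_nonneg_right hlog hk'.le
  calc liminf (rate N ∘ T) atTop ≤ liminf (fun k => ((f (T k) : ℝ) : EReal)) atTop :=
        liminf_le_liminf hle
    _ = ((Real.log c : ℝ) : EReal) := by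
        apply Tendsto.liminf_eq
        exact (continuous_coe_real_ereal.tendsto _).comp (hf.comp hT)

/-- Lower bound of the upper growth rate along a sequence of times. -/
theorem le_limsup_rate {N : ℕ → ℕ} {q : ℕ} (hq : 1 ≤ q) {T m : ℕ → ℕ} {r : ℝ}
    (hT : Tendsto T atTop atTop) (hr : Tendsto (fun k => (m k : ℝ) / T k) atTop (𝓝 r))
    (h : ∀ k, q ^ m k ≤ N (T k)) :
    ((r * Real.log q : ℝ) : EReal) ≤ limsup (rate N) atTop := by
  have h1 : limsup (rate N ∘ T) atTop ≤ limsup (rate N) atTop := by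
    have : limsup (rate N) (map T atTop) ≤ limsup (rate N) atTop :=
      limsup_le_limsup_of_le hT
    exact this
  refine le_trans ?_ h1
  have hq' : (1 : ℝ) ≤ q := by exact_mod_cast hq
  have hle : ∀ k, (((m k : ℝ) / T k * Real.log q : ℝ) : EReal) ≤ (rate N ∘ T) k := by
    intro k
    simp only [Function.comp, rate]
    rw [EReal.coe_le_coe_iff]
    have h2 : Real.log ((q : ℝ) ^ m k) ≤ Real.log (N (T k)) := by
      apply Real.log_le_log (by positivity)
      exact_mod_cast h k
    rw [Real.log_pow] at h2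
    have : (m k : ℝ) / T k * Real.log q = (m k * Real.log q) / T k := by ring
    rw [this]
    exact div_le_div_of_nonneg_right h2 (by positivity)
  calc ((r * Real.log q : ℝ) : EReal)
      = limsup (fun k => (((m k : ℝ) / T k * Real.log q : ℝ) : EReal)) atTop := by
        symm
        apply Tendsto.limsup_eq
        exact (continuous_coe_real_ereal.tendsto _).comp (hr.mul_const _)
    _ ≤ limsup (rate N ∘ T) atTop := limsup_le_limsup (Eventually.of_forall hle)

section
variable {S : Type} (P : ℕ → List (List S × List S))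

theorem tendsto_gg : Tendsto (gg P) atTop atTop :=
  tendsto_atTop_mono (fun k => (lt_gg P k).le) tendsto_id

theorem tendsto_island : Tendsto (fun k => 2 * mm P k + gg P k) atTop atTop :=
  tendsto_atTop_mono (fun k => by have := lt_gg P k; simp only [id]; omega) tendsto_id

theorem tendsto_half :
    Tendsto (fun k => (mm P k : ℝ) / ((2 * mm P k + gg P k : ℕ) : ℝ)) atTop (𝓝 (1 / 2)) := by
  have h1 : Tendsto (fun k : ℕ => 1 / (2 + 1 / ((k : ℝ) + 1))) atTop (𝓝 (1 / (2 + 0))) := by
    apply Tendsto.div tendsto_const_nhds _ (by norm_num)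
    exact tendsto_const_nhds.add tendsto_one_div_add_atTop_nhds_zero_nat
  rw [add_zero] at h1
  refine tendsto_of_tendsto_of_tendsto_of_le_of_le h1 tendsto_const_nhds ?_ ?_
  · intro k
    have hm : (0 : ℝ) < mm P k := by
      have := gg_lt_mm P k
      exact_mod_cast (lt_of_le_of_lt (Nat.zero_le _) this)
    have hmk : (mm P k : ℝ) = ((k : ℝ) + 1) * (gg P k + 1) := by
      unfold mm; push_cast; ring
    have hT : (0 : ℝ) < ((2 * mm P k + gg P k : ℕ) : ℝ) := by
      push_cast; positivity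
    simp only
    rw [div_le_div_iff₀ (by positivity) hT]
    push_cast
    have hk : (0 : ℝ) < (k : ℝ) + 1 := by positivity
    have h2 : (mm P k : ℝ) * (1 / ((k : ℝ) + 1)) = gg P k + 1 := by
      rw [hmk]; field_simp
    nlinarith
  · intro k
    have hm : (0 : ℝ) < mm P k := by
      have := gg_lt_mm P k
      exact_mod_cast (lt_of_le_of_lt (Nat.zero_le _) this)
    have hT : (0 : ℝ) < ((2 * mm P k + gg P k : ℕ) : ℝ) := by
      push_cast; positivity
    simp only
    rw [div_le_div_iff₀ hT (by norm_num)]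
    push_cast
    have : (0 : ℝ) ≤ gg P k := by positivity
    linarith

end

section entropy
variable {S : Type} [Far S] (Y : Sub S) [Fintype S]

theorem cx_le (n : ℕ) : Y.cx n ≤ (Fintype.card (Option S)) ^ n := by
  have h1 : Y.lang n ⊆ (fun f : Fin n → Option S => List.ofFn f) '' Set.univ := by
    rintro w ⟨y, _, rfl⟩
    exact ⟨_, trivial, rfl⟩
  calc Y.cx n ≤ ((fun f : Fin n → Option S => List.ofFn f) '' Set.univ).ncard :=
        Set.ncard_le_ncard h1 (Set.toFinite _)
    _ ≤ (Set.univ : Set (Fin n → Option S)).ncard := Set.ncard_image_le (Set.toFinite _)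
    _ = _ := by
        rw [Set.ncard_univ, Nat.card_eq_fintype_card]
        simp

omit [Fintype S] in
theorem lang_nonempty (h : Y.carrier.Nonempty) (n : ℕ) : (Y.lang n).Nonempty := by
  obtain ⟨y, hy⟩ := h
  exact ⟨_, y, hy, rfl⟩

theorem cx_pos (h : Y.carrier.Nonempty) (n : ℕ) : 1 ≤ Y.cx n :=
  (Set.ncard_pos (Y.lang_finite n)).mpr (lang_nonempty Y h n)

theorem sep_le_cx {δ : ℝ} (hδ : 0 < δ) : ∃ N : ℕ, ∀ T, sep Y.homeo δ T ≤ Y.cx (T + 2 * N) := by
  obtain ⟨N, hN⟩ := Y.exists_agree_bound hδ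
  exact ⟨N, fun T => Y.sep_le fun F hF => Y.sep_card_le (hN T) hF⟩

theorem one_le_sep (h : Y.carrier.Nonempty) {δ : ℝ} (hδ : 0 < δ) (T : ℕ) :
    1 ≤ sep Y.homeo δ T := by
  obtain ⟨y, hy⟩ := h
  have : IsSep Y.homeo δ T {(⟨y, hy⟩ : Y.carrier)} := by
    intro a ha b hb hab
    rw [Finset.mem_singleton] at ha hb
    exact (hab (ha.trans hb.symm)).elim
  simpa using Y.le_sep hδ this

theorem sep_anti {δ δ' : ℝ} (hδ : 0 < δ) (h : δ ≤ δ') (T : ℕ) :
    sep Y.homeo δ' T ≤ sep Y.homeo δ T := by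
  apply Y.sep_le
  intro F hF
  exact Y.le_sep hδ fun x hx y hy hxy => h.trans (hF x hx y hy hxy)

theorem rate_mono {M N : ℕ → ℕ} {T : ℕ} (h1 : 1 ≤ M T) (h : M T ≤ N T) :
    rate M T ≤ rate N T := by
  unfold rate
  rw [EReal.coe_le_coe_iff]
  apply div_le_div_of_nonneg_right _ (by positivity)
  apply Real.log_le_log
  · exact_mod_cast h1
  · exact_mod_cast h

theorem rate_nonneg (N : ℕ → ℕ) (T : ℕ) : 0 ≤ rate N T := by
  unfold rate
  rw [← EReal.coe_zero, EReal.coe_le_coe_iff]
  apply div_nonneg _ (by positivity)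
  exact Real.log_natCast_nonneg _

theorem sepUpper_anti (hY : Y.carrier.Nonempty) {δ δ' : ℝ} (hδ : 0 < δ) (h : δ ≤ δ') :
    sepUpper Y.homeo δ' ≤ sepUpper Y.homeo δ :=
  limsup_le_limsup (Eventually.of_forall fun T =>
    rate_mono (one_le_sep Y hY (hδ.trans_le h) T) (sep_anti Y hδ h T))

theorem sepUpper_le (hY : Y.carrier.Nonempty) {δ : ℝ} (hδ : 0 < δ) :
    sepUpper Y.homeo δ ≤ ((Real.log (Fintype.card (Option S)) : ℝ) : EReal) := by
  obtain ⟨N, hN⟩ := sep_le_cx Y hδ
  set c : ℝ := Real.log (Fintype.card (Option S)) with hc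
  have hc0 : 0 ≤ c := Real.log_natCast_nonneg _
  have hle : ∀ᶠ T : ℕ in atTop, rate (sep Y.homeo δ) T ≤
      ((c + 2 * N * c * (1 / (T : ℝ)) : ℝ) : EReal) := by
    filter_upwards [eventually_gt_atTop 0] with T hT
    unfold rate
    rw [EReal.coe_le_coe_iff]
    have hT' : (0 : ℝ) < T := by exact_mod_cast hT
    have h1 : Real.log (sep Y.homeo δ T) ≤ (T + 2 * N) * c := by
      have h2 : (sep Y.homeo δ T : ℝ) ≤ (Fintype.card (Option S) : ℝ) ^ (T + 2 * N) := by
        exact_mod_cast (hN T).trans (cx_le Y _)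
      have h3 := Real.log_le_log (by exact_mod_cast one_le_sep Y hY hδ T) h2
      rw [Real.log_pow] at h3
      push_cast at h3
      exact h3
    rw [div_le_iff₀ hT']
    have : (c + 2 * N * c * (1 / (T : ℝ))) * T = (T + 2 * N) * c := by field_simp
    rw [this]; exact h1
  have hlim : Tendsto (fun T : ℕ => ((c + 2 * N * c * (1 / (T : ℝ)) : ℝ) : EReal)) atTop
      (𝓝 ((c : ℝ) : EReal)) := by
    apply (continuous_coe_real_ereal.tendsto _).comp
    have := ((tendsto_one_div_atTop_nhds_zero_nat (𝕜 := ℝ)).const_mul (2 * N * c)).const_add c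
    simpa using this
  calc sepUpper Y.homeo δ ≤ limsup (fun T : ℕ => ((c + 2 * N * c * (1 / (T : ℝ)) : ℝ) : EReal))
        atTop := limsup_le_limsup hle
    _ = _ := hlim.limsup_eq

omit [Fintype S] in
theorem sepUpper_nonneg {δ : ℝ} : 0 ≤ sepUpper Y.homeo δ := by
  have : limsup (fun _ : ℕ => (0 : EReal)) atTop ≤ sepUpper Y.homeo δ :=
    limsup_le_limsup (Eventually.of_forall fun T => rate_nonneg _ T)
  simpa using this

/-- Every system over a finite alphabet has finite entropy. -/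
theorem finite_entropy (hY : Y.carrier.Nonempty) : ∃ h : ℝ, HasEntropy Y.homeo h := by
  let L : EReal := ⨆ δ : {δ : ℝ // 0 < δ}, sepUpper Y.homeo δ
  have hL : HasEntropy Y.homeo L := by
    unfold HasEntropy
    rw [tendsto_order]
    constructor
    · intro a ha
      obtain ⟨δ, hδ⟩ := lt_iSup_iff.mp ha
      have : Set.Ioc (0 : ℝ) δ.1 ∈ 𝓝[>] (0 : ℝ) := Ioc_mem_nhdsGT δ.2
      filter_upwards [this] with ε hε
      exact hδ.trans_le (sepUpper_anti Y hY hε.1 hε.2)
    · intro a ha
      filter_upwards [self_mem_nhdsWithin] with ε hε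
      exact (le_iSup (fun δ : {δ : ℝ // 0 < δ} => sepUpper Y.homeo δ) ⟨ε, hε⟩).trans_lt ha
  have h1 : L ≤ ((Real.log (Fintype.card (Option S)) : ℝ) : EReal) :=
    iSup_le fun δ => sepUpper_le Y hY δ.2
  have h2 : 0 ≤ L := (sepUpper_nonneg Y (δ := 1)).trans
    (le_iSup (fun δ : {δ : ℝ // 0 < δ} => sepUpper Y.homeo δ) ⟨1, one_pos⟩)
  have h3 : L ≠ ⊤ := ne_of_lt (h1.trans_lt (EReal.coe_lt_top _))
  have h4 : L ≠ ⊥ := ne_of_gt (lt_of_lt_of_le EReal.bot_lt_zero h2)
  refine ⟨L.toReal, ?_⟩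
  rw [EReal.coe_toReal h3 h4]
  exact hL

end entropy

end Pool.Agent.Weiss
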