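import Pool.Agent.Weiss.Cfg

/-!
Closed shift invariant sets of configurations as systems; words; bounds on separated and
spanning sets by words.
-/

namespace Pool.Agent.Weiss

open Filter Topology

/-- The word of length `n` of a two-sided sequence read from place `s`. -/
def win {A : Type} (y : ℤ → A) (s : ℤ) (n : ℕ) : List A :=
  List.ofFn (fun i : Fin n => y (s + (i : ℕ)))

section win
variable {A : Type}

@[simp] theorem win_length (y : ℤ → A) (s : ℤ) (n : ℕ) : (win y s n).length = n := by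
  simp [win]

theorem win_get (y : ℤ → A) (s : ℤ) (n : ℕ) (i : ℕ) (h : i < (win y s n).length) :
    (win y s n)[i] = y (s + i) := by
  simp [win]

theorem win_eq_iff {y z : ℤ → A} {s t : ℤ} {n : ℕ} :
    win y s n = win z t n ↔ ∀ i : ℕ, i < n → y (s + i) = z (t + i) := by
  constructor
  · intro h i hi
    have h1 := win_get y s n i (by simpa using hi)
    have h2 := win_get z t n i (by simpa using hi)
    rw [← h1, ← h2]
    simp only [h]
  · intro h
    apply List.ext_getElem (by simp)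
    intro i h1 h2
    rw [win_get, win_get]
    exact h i (by simpa using h1)

theorem win_eq_iff_list {y : ℤ → A} {s : ℤ} {n : ℕ} {w : List A} (hw : w.length = n) :
    win y s n = w ↔ ∀ (i : ℕ) (hi : i < n), y (s + i) = w[i]'(by omega) := by
  constructor
  · intro h i hi
    have h1 := win_get y s n i (by simpa using hi)
    rw [← h1]
    simp only [h]
  · intro h
    apply List.ext_getElem (by simp [hw])
    intro i h1 h2
    rw [win_get]
    exact h i (by simpa using h1)

theorem win_append (y : ℤ → A) (s : ℤ) (m n : ℕ) :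
    win y s (m + n) = win y s m ++ win y (s + m) n := by
  apply List.ext_getElem (by simp)
  intro i h1 h2
  rw [win_get, List.getElem_append]
  split_ifs with h
  · rw [win_get]
  · rw [win_get]
    simp only [win_length] at h ⊢
    congr 1
    omega

end win

/-- A closed set of configurations invariant under the shift and its inverse. -/
structure Sub (S : Type) [Far S] where
  carrier : Set (Cfg S)
  closed : IsClosed carrier
  shift_mem : ∀ x ∈ carrier, Cfg.shift x ∈ carrier
  unshift_mem : ∀ x ∈ carrier, Cfg.unshift x ∈ carrier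

namespace Sub

variable {S : Type} [Far S] (Y : Sub S)

/-- The shift as a homeomorphism. -/
def homeo : Y.carrier ≃ₜ Y.carrier where
  toFun x := ⟨Cfg.shift x.1, Y.shift_mem _ x.2⟩
  invFun x := ⟨Cfg.unshift x.1, Y.unshift_mem _ x.2⟩
  left_inv x := Subtype.ext (Cfg.unshift_shift x.1)
  right_inv x := Subtype.ext (Cfg.shift_unshift x.1)
  continuous_toFun :=
    Continuous.subtype_mk (Cfg.continuous_shift.comp continuous_subtype_val) _
  continuous_invFun :=
    Continuous.subtype_mk (Cfg.continuous_unshift.comp continuous_subtype_val) _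

theorem iterate_apply (x : Y.carrier) (t : ℕ) (n : ℤ) :
    (Y.homeo^[t] x).1 n = x.1 (n + t) := by
  induction t generalizing n with
  | zero => simp
  | succ t ih =>
    rw [Function.iterate_succ_apply']
    change (Y.homeo^[t] x).1 (n + 1) = _
    rw [ih]
    congr 1
    push_cast
    ring

theorem dynDist_le_one (T : ℕ) (x y : Y.carrier) : dynDist Y.homeo T x y ≤ 1 := by
  unfold dynDist
  rcases isEmpty_or_nonempty (Fin T) with h | h
  · rw [Real.iSup_of_isEmpty]; norm_num
  · exact ciSup_le fun t => Cfg.dist_le_one _ _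

theorem dynDist_lt_iff {T : ℕ} {x y : Y.carrier} {ε : ℝ} (hε : 0 < ε) :
    dynDist Y.homeo T x y < ε ↔
      ∀ t < T, dist (Y.homeo^[t] x) (Y.homeo^[t] y) < ε := by
  unfold dynDist
  rcases isEmpty_or_nonempty (Fin T) with h | h
  · rw [Real.iSup_of_isEmpty]
    constructor
    · intro _ t ht; exact (h.false ⟨t, ht⟩).elim
    · intro _; exact hε
  · constructor
    · intro hh t ht
      refine lt_of_le_of_lt ?_ hh
      exact le_ciSup (f := fun t : Fin T => dist (Y.homeo^[(t : ℕ)] x) (Y.homeo^[(t : ℕ)] y))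
        (Set.finite_range _).bddAbove ⟨t, ht⟩
    · intro hh
      obtain ⟨t, ht⟩ := exists_eq_ciSup_of_finite
        (f := fun t : Fin T => dist (Y.homeo^[(t : ℕ)] x) (Y.homeo^[(t : ℕ)] y))
      rw [← ht]
      exact hh t t.2

theorem dist_iterate_lt_one_iff {x y : Y.carrier} {t : ℕ} :
    dist (Y.homeo^[t] x) (Y.homeo^[t] y) < 1 ↔ ¬ ofar (x.1 t) (y.1 t) := by
  have h : dist (Y.homeo^[t] x) (Y.homeo^[t] y) = dist (Y.homeo^[t] x).1 (Y.homeo^[t] y).1 := rfl
  rw [h, ← not_le, Cfg.one_le_dist_iff, iterate_apply, iterate_apply]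
  simp

theorem dynDist_lt_one_iff {T : ℕ} {x y : Y.carrier} :
    dynDist Y.homeo T x y < 1 ↔ ∀ t : ℕ, t < T → ¬ ofar (x.1 t) (y.1 t) := by
  rw [dynDist_lt_iff Y one_pos]
  exact forall₂_congr fun t _ => dist_iterate_lt_one_iff Y

theorem one_le_dynDist_iff {T : ℕ} {x y : Y.carrier} :
    1 ≤ dynDist Y.homeo T x y ↔ ∃ t : ℕ, t < T ∧ ofar (x.1 t) (y.1 t) := by
  rw [← not_lt, dynDist_lt_one_iff]
  push Not
  rfl

theorem exists_agree_bound {δ : ℝ} (hδ : 0 < δ) : ∃ N : ℕ, ∀ (T : ℕ) (x y : Y.carrier),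
    win x.1 (-(N : ℤ)) (T + 2 * N) = win y.1 (-(N : ℤ)) (T + 2 * N) →
      dynDist Y.homeo T x y < δ := by
  obtain ⟨N, hN⟩ := exists_pow_lt_of_lt_one hδ (show (1 / 2 : ℝ) < 1 by norm_num)
  refine ⟨N, fun T x y h => ?_⟩
  rw [dynDist_lt_iff Y hδ]
  intro t ht
  refine lt_of_le_of_lt ?_ hN
  change dist (Y.homeo^[t] x).1 (Y.homeo^[t] y).1 ≤ _
  apply Cfg.dist_le_of_agree
  intro n hn
  rw [iterate_apply, iterate_apply]
  rw [win_eq_iff] at h
  obtain ⟨i, hi⟩ : ∃ i : ℕ, (i : ℤ) = n + t + N := ⟨(n + t + N).toNat, by omega⟩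
  have := h i (by omega)
  rw [hi] at this
  convert this using 2 <;> ring

/-- The words of length `n` of the system. -/
def lang (n : ℕ) : Set (List (Option S)) := {w | ∃ y ∈ Y.carrier, win y.toFun 0 n = w}

theorem translate_mem {y : Cfg S} (hy : y ∈ Y.carrier) (s : ℤ) :
    (⟨fun n => y (n + s)⟩ : Cfg S) ∈ Y.carrier := by
  have hpos : ∀ k : ℕ, (⟨fun n => y (n + k)⟩ : Cfg S) ∈ Y.carrier := by
    intro k
    induction k with
    | zero => simpa using hy
    | succ k ih =>
      have := Y.shift_mem _ ih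
      convert this using 1
      apply Cfg.ext'
      intro n
      simp only [Cfg.shift]
      congr 1
      push_cast; ring
  have hneg : ∀ k : ℕ, (⟨fun n => y (n - k)⟩ : Cfg S) ∈ Y.carrier := by
    intro k
    induction k with
    | zero => simpa using hy
    | succ k ih =>
      have := Y.unshift_mem _ ih
      convert this using 1
      apply Cfg.ext'
      intro n
      simp only [Cfg.unshift]
      congr 1
      push_cast; ring
  rcases le_total 0 s with h | h
  · obtain ⟨k, rfl⟩ := Int.eq_ofNat_of_zero_le h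
    exact hpos k
  · obtain ⟨k, hk⟩ := Int.eq_ofNat_of_zero_le (neg_nonneg.mpr h)
    have := hneg k
    rw [← hk] at this
    simpa using this

theorem win_mem_lang {y : Cfg S} (hy : y ∈ Y.carrier) (s : ℤ) (n : ℕ) :
    win y.toFun s n ∈ Y.lang n := by
  refine ⟨_, Y.translate_mem hy s, ?_⟩
  rw [win_eq_iff]
  intro i _
  simp [add_comm]

theorem length_of_mem_lang {n : ℕ} {w : List (Option S)} (h : w ∈ Y.lang n) : w.length = n := by
  obtain ⟨y, _, rfl⟩ := h
  simp

theorem lang_finite [Finite S] (n : ℕ) : (Y.lang n).Finite :=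
  (List.finite_length_eq (Option S) n).subset fun _ h => Y.length_of_mem_lang h

/-- The number of words of length `n`. -/
noncomputable def cx (n : ℕ) : ℕ := (Y.lang n).ncard

variable [Finite S]

theorem sep_card_le {δ : ℝ} {N : ℕ} {T : ℕ}
    (hN : ∀ x y : Y.carrier,
      win x.1 (-(N : ℤ)) (T + 2 * N) = win y.1 (-(N : ℤ)) (T + 2 * N) →
        dynDist Y.homeo T x y < δ) {P : Finset Y.carrier} (hP : IsSep Y.homeo δ T P) :
    P.card ≤ Y.cx (T + 2 * N) := by
  classical
  have hinj : Set.InjOn (fun x : Y.carrier => win x.1.toFun (-(N : ℤ)) (T + 2 * N)) P := by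
    intro x hx y hy hxy
    by_contra hne
    exact absurd (hN x y hxy) (not_lt.mpr (hP x hx y hy hne))
  rw [← Finset.card_image_of_injOn hinj]
  rw [← Set.ncard_coe_finset]
  apply Set.ncard_le_ncard _ (Y.lang_finite _)
  intro w hw
  simp only [Finset.coe_image, Set.mem_image] at hw
  obtain ⟨x, _, rfl⟩ := hw
  exact Y.win_mem_lang x.2 _ _

theorem sep_bddAbove {δ : ℝ} (hδ : 0 < δ) (T : ℕ) :
    BddAbove {n : ℕ | ∃ P : Finset Y.carrier, IsSep Y.homeo δ T P ∧ P.card = n} := by
  obtain ⟨N, hN⟩ := Y.exists_agree_bound hδ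
  refine ⟨Y.cx (T + 2 * N), ?_⟩
  rintro _ ⟨P, hP, rfl⟩
  exact Y.sep_card_le (hN T) hP

omit [Finite S] in
theorem sep_set_nonempty (δ : ℝ) (T : ℕ) :
    {n : ℕ | ∃ P : Finset Y.carrier, IsSep Y.homeo δ T P ∧ P.card = n}.Nonempty :=
  ⟨0, ∅, by intro x hx; simp at hx, rfl⟩

theorem le_sep {δ : ℝ} (hδ : 0 < δ) {T : ℕ} {P : Finset Y.carrier}
    (hP : IsSep Y.homeo δ T P) : P.card ≤ sep Y.homeo δ T :=
  le_csSup (Y.sep_bddAbove hδ T) ⟨P, hP, rfl⟩

omit [Finite S] in
theorem sep_le {δ : ℝ} {T b : ℕ}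
    (h : ∀ P : Finset Y.carrier, IsSep Y.homeo δ T P → P.card ≤ b) : sep Y.homeo δ T ≤ b := by
  apply csSup_le (Y.sep_set_nonempty δ T)
  rintro _ ⟨P, hP, rfl⟩
  exact h P hP

/-- A largest separated set. -/
theorem exists_max_sep {δ : ℝ} (hδ : 0 < δ) (T : ℕ) :
    ∃ P : Finset Y.carrier, IsSep Y.homeo δ T P ∧ P.card = sep Y.homeo δ T :=
  Nat.sSup_mem (Y.sep_set_nonempty δ T) (Y.sep_bddAbove hδ T)

omit [Finite S] in
theorem dynDist_self (T : ℕ) (x : Y.carrier) : dynDist Y.homeo T x x = 0 := by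
  unfold dynDist
  simp

omit [Finite S] in
theorem dynDist_comm (T : ℕ) (x y : Y.carrier) :
    dynDist Y.homeo T x y = dynDist Y.homeo T y x := by
  unfold dynDist
  simp only [dist_comm]

theorem max_sep_isSpan {δ : ℝ} (hδ : 0 < δ) (T : ℕ) {P : Finset Y.carrier}
    (hP : IsSep Y.homeo δ T P) (hc : P.card = sep Y.homeo δ T) : IsSpan Y.homeo δ T P := by
  classical
  intro x
  by_contra hcon
  push Not at hcon
  have hx : x ∉ P := by
    intro hx
    have := hcon x hx
    rw [dynDist_self] at this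
    linarith
  have hins : IsSep Y.homeo δ T (insert x P) := by
    intro a ha b hb hab
    rw [Finset.mem_insert] at ha hb
    rcases ha with rfl | ha <;> rcases hb with rfl | hb
    · exact (hab rfl).elim
    · rw [dynDist_comm]; exact hcon b hb
    · exact hcon a ha
    · exact hP a ha b hb hab
  have := Y.le_sep hδ hins
  rw [Finset.card_insert_of_notMem hx] at this
  omega

theorem span_le_sep {δ : ℝ} (hδ : 0 < δ) (T : ℕ) : span Y.homeo δ T ≤ sep Y.homeo δ T := by
  obtain ⟨P, hP, hc⟩ := Y.exists_max_sep hδ T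
  exact Nat.sInf_le ⟨P, Y.max_sep_isSpan hδ T hP hc, hc⟩

omit [Finite S] in
theorem span_le {δ : ℝ} {T : ℕ} {P : Finset Y.carrier}
    (hP : IsSpan Y.homeo δ T P) : span Y.homeo δ T ≤ P.card :=
  Nat.sInf_le ⟨P, hP, rfl⟩

theorem le_span {δ : ℝ} (hδ : 0 < δ) {T b : ℕ}
    (h : ∀ P : Finset Y.carrier, IsSpan Y.homeo δ T P → b ≤ P.card) :
    b ≤ span Y.homeo δ T := by
  obtain ⟨P, hP, hc⟩ := Y.exists_max_sep hδ T
  have hne : {n : ℕ | ∃ P : Finset Y.carrier, IsSpan Y.homeo δ T P ∧ P.card = n}.Nonempty :=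
    ⟨_, P, Y.max_sep_isSpan hδ T hP hc, rfl⟩
  obtain ⟨Q, hQ, hQc⟩ := Nat.sInf_mem hne
  have := h Q hQ
  rw [hQc] at this
  exact this

end Sub

end Pool.Agent.Weiss
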