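import Pool.Agent.Weiss.Words

/-!
Windows of the system at the two kinds of times: the gap lengths `gg k` (windows are old or see
one part of one island) and the island lengths `2 mm k + gg k` (recognition of islands).
-/

namespace Pool.Agent.Weiss

section
variable {S : Type} (P : ℕ → List (List S × List S))

/-- All pairs of `P m` consist of words of length `m`. -/
def PLen : Prop := ∀ m, ∀ p ∈ P m, p.1.length = m ∧ p.2.length = m

/-- The one-part windows: a run followed by a factor of a part, or a factor of a part followed by
a run. -/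
def OnePart (w : List (Option S)) : Prop :=
  ∃ i : ℕ, ∃ p ∈ P (mm P i), ∃ q : List S, (q = p.1 ∨ q = p.2) ∧
    ∃ (b : ℕ) (v : List S), v <:+: q ∧ (w = z b ++ v.map some ∨ w = v.map some ++ z b)

theorem map_some_infix {v : List (Option S)} {q : List S} (h : v <:+: q.map some) :
    ∃ v' : List S, v = v'.map some ∧ v' <:+: q := by
  obtain ⟨a, b, hab⟩ := h
  obtain ⟨l1, l2, rfl, h1, h2⟩ := List.append_eq_map_iff.mp hab
  obtain ⟨l3, l4, rfl, h3, h4⟩ := List.append_eq_map_iff.mp h1.symm
  exact ⟨l4, h4.symm, l3, l2, rfl⟩

variable {P}

/-- A window inside an island whose gap is at least the length of the window. -/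
theorem onePart_of_infix (hP : PLen P) {w : List (Option S)} {i a : ℕ} {p : List S × List S}
    (hp : p ∈ P (mm P i)) (hw : w.length ≤ gg P i)
    (h : w <:+: z a ++ isl (gg P i) p ++ z a) : OnePart P w := by
  have h1 : w <:+: (z a ++ p.1.map some) ++ z (gg P i) ++ (p.2.map some ++ z a) := by
    simpa [isl, List.append_assoc] using h
  have hlen := hP _ p hp
  have hgm := gg_lt_mm P i
  rcases infix_split h1 (by simpa using hw) with h2 | h2
  · -- left part
    have h3 : w <:+: z a ++ p.1.map some ++ z (gg P i) := h2
    rcases infix_split h3 (by rw [List.length_map, hlen.1]; omega) with h4 | h4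
    · obtain ⟨b, v, rfl, hv, _⟩ := infix_zeros_left h4
      obtain ⟨v', rfl, hv'⟩ := map_some_infix hv
      exact ⟨i, p, hp, p.1, Or.inl rfl, b, v', hv', Or.inl rfl⟩
    · obtain ⟨b, v, rfl, hv, _⟩ := infix_zeros_right h4
      obtain ⟨v', rfl, hv'⟩ := map_some_infix hv
      exact ⟨i, p, hp, p.1, Or.inl rfl, b, v', hv', Or.inr rfl⟩
  · have h3 : w <:+: z (gg P i) ++ p.2.map some ++ z a := by
      simpa [List.append_assoc] using h2
    rcases infix_split h3 (by rw [List.length_map, hlen.2]; omega) with h4 | h4
    · obtain ⟨b, v, rfl, hv, _⟩ := infix_zeros_left h4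
      obtain ⟨v', rfl, hv'⟩ := map_some_infix hv
      exact ⟨i, p, hp, p.2, Or.inr rfl, b, v', hv', Or.inl rfl⟩
    · obtain ⟨b, v, rfl, hv, _⟩ := infix_zeros_right h4
      obtain ⟨v', rfl, hv'⟩ := map_some_infix hv
      exact ⟨i, p, hp, p.2, Or.inr rfl, b, v', hv', Or.inr rfl⟩

/-- Windows of length `gg k`: old windows or one-part windows. -/
theorem window_gg (hP : PLen P) {w : List (Option S)} {k j : ℕ} (hw : w.length = gg P k)
    (h : w <:+: B P j) :
    w <:+: z (gg P k) ++ B P k ++ z (gg P k) ∨ OnePart P w := by
  have hj : w <:+: z (gg P k) ++ B P (max k j) ++ z (gg P k) := by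
    refine (h.trans (B_infix P (le_max_right k j))).trans ?_
    exact ⟨_, _, rfl⟩
  have H : ∀ i, k ≤ i → Splits w (gg P i + 1) (gg P k) := by
    intro i hi
    have := gg_mono P hi
    exact splits_of_length (by omega) (by omega)
  rcases structure_lemma P H _ (le_max_left k j) hj with h1 | ⟨i, hi, p, hp, h1⟩
  · left; exact h1
  · right
    have := gg_mono P hi
    exact onePart_of_infix hP hp (by omega) h1

theorem map_some_z_inj {u u' v v' : List S} {g : ℕ} (h1 : u.length = v.length)
    (h : u.map some ++ z g ++ u'.map some = v.map some ++ z g ++ v'.map some) :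
    u = v ∧ u' = v' := by
  rw [List.append_assoc, List.append_assoc] at h
  have h2 := List.append_inj h (by simpa using h1)
  have h3 := List.append_cancel_left h2.2
  exact ⟨List.map_injective_iff.mpr (Option.some_injective S) h2.1,
    List.map_injective_iff.mpr (Option.some_injective S) h3⟩

theorem countP_none_map (u : List S) : (u.map some).countP Option.isNone = 0 := by
  rw [List.countP_eq_zero]
  simp

theorem countP_none_z (n : ℕ) : (z n : List (Option S)).countP Option.isNone = n := by
  simp [z, List.countP_replicate]

theorem free_of_shape {u u' : List S} {g : ℕ} :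
    ¬ (z (g + 1) : List (Option S)) <:+: u.map some ++ z g ++ u'.map some := by
  intro h
  have h1 := h.sublist.countP_le (p := Option.isNone)
  simp only [List.countP_append, countP_none_map, countP_none_z] at h1
  omega

theorem infix_of_shape_left {x : S} {w q : List (Option S)} {a : ℕ}
    (h : some x :: w <:+: z a ++ q) : some x :: w <:+: q := by
  obtain ⟨b, v, hv, hq, _⟩ := infix_zeros_left h
  cases b with
  | zero => rw [hv]; simpa [z] using hq
  | succ b => simp [z, List.replicate_succ] at hv

theorem infix_of_shape_right {y : S} {w q : List (Option S)} {a : ℕ}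
    (h : w ++ [some y] <:+: q ++ z a) : w ++ [some y] <:+: q := by
  obtain ⟨b, v, hv, hq, _⟩ := infix_zeros_right h
  cases b with
  | zero => rw [hv]; simpa [z] using hq
  | succ b =>
    have h2 : (z (b + 1) : List (Option S)) = z b ++ [none] := by
      rw [z_add]; rfl
    rw [h2, ← List.append_assoc] at hv
    have := List.append_inj_right' hv rfl
    simp at this

theorem infix_strip {u u' : List S} {g a a' : ℕ} {o : List (Option S)} (hu : u ≠ [])
    (hu' : u' ≠ []) (h : u.map some ++ z g ++ u'.map some <:+: z a ++ o ++ z a') :
    u.map some ++ z g ++ u'.map some <:+: o := by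
  obtain ⟨x, u1, rfl⟩ := List.exists_cons_of_ne_nil hu
  obtain ⟨u2, y, rfl⟩ := List.eq_nil_or_concat u' |>.resolve_left hu'
  have e1 : (x :: u1).map some ++ z g ++ (u2.concat y).map some =
      some x :: (u1.map some ++ z g ++ u2.map some ++ [some y]) := by simp
  have e2 : (x :: u1).map some ++ z g ++ (u2.concat y).map some =
      (some x :: (u1.map some ++ z g ++ u2.map some)) ++ [some y] := by simp
  have h1 : (x :: u1).map some ++ z g ++ (u2.concat y).map some <:+: o ++ z a' := by
    rw [e1] at h ⊢
    rw [List.append_assoc (z a)] at h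
    exact infix_of_shape_left h
  rw [e2] at h1 ⊢
  exact infix_of_shape_right h1

theorem not_onePart_shape {u u' : List S} {g : ℕ} (hg : 0 < g) (hu : u ≠ [])
    (hu' : u' ≠ []) : ¬ OnePart P (u.map some ++ z g ++ u'.map some) := by
  rintro ⟨i, p, hp, q, hq, b, v, hv, h | h⟩
  · have h1 : u.map some ++ z g ++ u'.map some <:+: z b ++ v.map some ++ z 0 := by
      rw [h]; simp [z]
    have h2 := infix_strip hu hu' h1
    have h3 := h2.sublist.countP_le (p := Option.isNone)
    simp only [List.countP_append, countP_none_map, countP_none_z] at h3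
    omega
  · have h1 : u.map some ++ z g ++ u'.map some <:+: z 0 ++ v.map some ++ z b := by
      rw [h]; simp [z]
    have h2 := infix_strip hu hu' h1
    have h3 := h2.sublist.countP_le (p := Option.isNone)
    simp only [List.countP_append, countP_none_map, countP_none_z] at h3
    omega

/-- Recognition of islands: a factor of the shape of an island of level `k + 1` is an island of
that level. -/
theorem recognition (hP : PLen P) (hne : ∀ m, P m ≠ []) {k j : ℕ} {u u' : List S}
    (hu : u.length = mm P k) (hu' : u'.length = mm P k)
    (h : isl (gg P k) (u, u') <:+: B P j) : (u, u') ∈ P (mm P k) := by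
  have hm : 0 < mm P k := lt_of_le_of_lt (Nat.zero_le _) (gg_lt_mm P k)
  have hune : u ≠ [] := by rintro rfl; simp at hu; omega
  have hune' : u' ≠ [] := by rintro rfl; simp at hu'; omega
  have hg : 0 < gg P k := lt_of_le_of_lt (Nat.zero_le _) (lt_gg P k)
  have hlen : (isl (gg P k) (u, u')).length = mm P k + gg P k + mm P k := by
    rw [isl_length, hu, hu']
  have hlen2 : mm P k + gg P k + mm P k ≤ gg P (k + 1) := by
    obtain ⟨p, hp⟩ := List.exists_mem_of_ne_nil _ (hne (mm P k))
    have h1 := (isl_infix P hp).length_le
    rw [List.length_append, isl_length, (hP _ p hp).1, (hP _ p hp).2, z_length] at h1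
    have := B_length_lt_gg P (k + 1)
    omega
  set a := gg P (k + 1) with ha
  have hj : isl (gg P k) (u, u') <:+: z a ++ B P (max (k + 1) j) ++ z a := by
    refine (h.trans (B_infix P (le_max_right (k + 1) j))).trans ?_
    exact ⟨_, _, rfl⟩
  have H : ∀ i, k + 1 ≤ i → Splits (isl (gg P k) (u, u')) (gg P i + 1) a := by
    intro i hi
    have := gg_mono P hi
    exact splits_of_length (by omega) (by omega)
  rcases structure_lemma P H _ (le_max_left _ _) hj with h1 | ⟨i, hi, p, hp, h1⟩
  · have hfree : Splits (isl (gg P k) (u, u')) (gg P k + 1) (gg P k + 1) :=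
      splits_of_free free_of_shape
    have h2 : isl (gg P k) (u, u') <:+: (z a ++ B P k) ++
        (P (mm P k)).flatMap (fun p => z (gg P k + 1) ++ isl (gg P k) p) ++
        z (gg P k + 1) ++ (B P k ++ z a) := by
      rw [B_succ] at h1
      simpa [List.append_assoc] using h1
    rcases infix_flatMap hfree _ _ _ _ h2 with h3 | ⟨p, hp, h3⟩ | h3
    · have h4 := (infix_strip hune hune' h3).length_le
      change (isl (gg P k) (u, u')).length ≤ _ at h4
      have := B_length_lt_gg P k
      omega
    · have h4 := infix_strip hune hune' h3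
      have h5 := h4.eq_of_length (by
        change (isl (gg P k) (u, u')).length = _
        rw [hlen, isl_length, (hP _ p hp).1, (hP _ p hp).2])
      obtain ⟨h6, h7⟩ := map_some_z_inj (by rw [hu, (hP _ p hp).1]) h5
      rw [h6, h7]
      exact hp
    · rw [← List.append_assoc] at h3
      have h4 := (infix_strip hune hune' h3).length_le
      change (isl (gg P k) (u, u')).length ≤ _ at h4
      have := B_length_lt_gg P k
      omega
  · have := gg_mono P hi
    have hl : (isl (gg P k) (u, u')).length ≤ gg P i := by omega
    exact (not_onePart_shape hg hune hune' (onePart_of_infix hP hp hl h1)).elim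

end

end Pool.Agent.Weiss
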