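import Pool.Agent.Weiss.Sub
import Pool.Agent.Weiss.Infix

/-!
The nested words `B k`, the orbit closure they generate and its basic properties.
-/

namespace Pool.Agent.Weiss

open Filter Topology

/-- The island `u 0^g u'`. -/
def isl {S : Type} (g : ℕ) (p : List S × List S) : List (Option S) :=
  p.1.map some ++ z g ++ p.2.map some

/-- One step: `l 0^a I_1 0^a I_2 ... 0^a I_r 0^a l` with `a = g + 1`, `g = |l| + k + 1`, where the
islands `I_j` run over the pairs in `P m`, `m = (k+1) a`. -/
def step {S : Type} (P : ℕ → List (List S × List S)) (k : ℕ) (l : List (Option S)) :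
    List (Option S) :=
  l ++ (P ((k + 1) * (l.length + k + 2))).flatMap
      (fun p => z (l.length + k + 2) ++ isl (l.length + k + 1) p) ++
    z (l.length + k + 2) ++ l

/-- The nested words. -/
def B {S : Type} (P : ℕ → List (List S × List S)) : ℕ → List (Option S)
  | 0 => []
  | k + 1 => step P k (B P k)

section
variable {S : Type} (P : ℕ → List (List S × List S))

/-- The gap inside the islands of level `k + 1`. -/
def gg (k : ℕ) : ℕ := (B P k).length + k + 1

/-- The length of the two parts of the islands of level `k + 1`. -/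
def mm (k : ℕ) : ℕ := (k + 1) * (gg P k + 1)

theorem B_succ (k : ℕ) : B P (k + 1) =
    B P k ++ (P (mm P k)).flatMap (fun p => z (gg P k + 1) ++ isl (gg P k) p) ++
      z (gg P k + 1) ++ B P k := rfl

theorem B_pre_succ (k : ℕ) : B P k <+: B P (k + 1) := by
  rw [B_succ, List.append_assoc, List.append_assoc]
  exact List.prefix_append _ _

theorem B_pre {j k : ℕ} (h : j ≤ k) : B P j <+: B P k := by
  induction k, h using Nat.le_induction with
  | base => exact List.prefix_rfl
  | succ k _ ih => exact ih.trans (B_pre_succ P k)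

theorem B_infix {j k : ℕ} (h : j ≤ k) : B P j <:+: B P k := (B_pre P h).isInfix

theorem B_length_mono {j k : ℕ} (h : j ≤ k) : (B P j).length ≤ (B P k).length :=
  (B_pre P h).length_le

theorem gg_mono {j k : ℕ} (h : j ≤ k) : gg P j ≤ gg P k := by
  have := B_length_mono P h
  unfold gg; omega

theorem B_length_succ (k : ℕ) : (B P k).length + gg P k + 1 ≤ (B P (k + 1)).length := by
  rw [B_succ]
  simp only [List.length_append, z_length]
  omega

theorem lt_gg (k : ℕ) : k < gg P k := by unfold gg; omega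

theorem le_B_length (k : ℕ) : k ≤ (B P k).length := by
  induction k with
  | zero => simp
  | succ k ih => have := B_length_succ P k; omega

theorem gg_lt_mm (k : ℕ) : gg P k < mm P k := by
  unfold mm
  nlinarith [Nat.zero_le k, Nat.zero_le (gg P k)]

theorem B_length_lt_gg (k : ℕ) : (B P k).length < gg P k := by unfold gg; omega

theorem mm_mono {j k : ℕ} (h : j ≤ k) : mm P j ≤ mm P k := by
  have := gg_mono P h
  unfold mm
  exact Nat.mul_le_mul (by omega) (by omega)

theorem zB_suffix (k : ℕ) : z (gg P k + 1) ++ B P k <:+ B P (k + 1) := by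
  rw [B_succ, List.append_assoc]
  exact List.suffix_append _ _

/-- Words `0^n B_j` occur. -/
theorem zB_infix (n j : ℕ) : z n ++ B P j <:+: B P (max n j + 1) := by
  have h1 := (zB_suffix P (max n j)).isInfix
  refine List.IsInfix.trans ?_ h1
  obtain ⟨q, hq⟩ := B_pre P (le_max_right n j)
  have hn : n ≤ gg P (max n j) + 1 := by
    have := lt_gg P (max n j)
    omega
  obtain ⟨r, hr⟩ := z_suffix (S := S) hn
  exact ⟨r, q, by rw [← hq, ← hr]; simp⟩

theorem isl_infix {k : ℕ} {p : List S × List S} (hp : p ∈ P (mm P k)) :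
    z (gg P k + 1) ++ isl (gg P k) p <:+: B P (k + 1) := by
  rw [B_succ]
  obtain ⟨s, t, hst⟩ := List.append_of_mem hp
  rw [hst]
  refine ⟨B P k ++ s.flatMap (fun p => z (gg P k + 1) ++ isl (gg P k) p),
    t.flatMap (fun p => z (gg P k + 1) ++ isl (gg P k) p) ++ z (gg P k + 1) ++ B P k, ?_⟩
  simp [List.append_assoc]

theorem isl_z_infix {k : ℕ} {p : List S × List S} (hp : p ∈ P (mm P k)) :
    isl (gg P k) p ++ z (gg P k + 1) <:+: B P (k + 1) := by
  rw [B_succ]
  obtain ⟨s, t, hst⟩ := List.append_of_mem hp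
  rw [hst]
  cases t with
  | nil =>
    refine ⟨B P k ++ s.flatMap (fun p => z (gg P k + 1) ++ isl (gg P k) p) ++ z (gg P k + 1),
      B P k, ?_⟩
    simp [List.append_assoc]
  | cons q t =>
    refine ⟨B P k ++ s.flatMap (fun p => z (gg P k + 1) ++ isl (gg P k) p) ++ z (gg P k + 1),
      isl (gg P k) q ++ t.flatMap (fun p => z (gg P k + 1) ++ isl (gg P k) p) ++
        z (gg P k + 1) ++ B P k, ?_⟩
    simp [List.append_assoc]

theorem isl_length {g : ℕ} {p : List S × List S} :
    (isl g p).length = p.1.length + g + p.2.length := by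
  simp [isl, add_assoc]

/-- Structure of the factors of `B j` that split at the runs of length `gg i + 1` for `i ≥ k`:
they are factors of the word `B k` or of an island of level above `k`, surrounded by runs. -/
theorem structure_lemma {w : List (Option S)} {k a : ℕ}
    (H : ∀ i, k ≤ i → Splits w (gg P i + 1) a) :
    ∀ j, k ≤ j → w <:+: z a ++ B P j ++ z a →
      w <:+: z a ++ B P k ++ z a ∨
        ∃ i, k ≤ i ∧ ∃ p ∈ P (mm P i), w <:+: z a ++ isl (gg P i) p ++ z a := by
  intro j hj
  induction j, hj using Nat.le_induction with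
  | base => intro h; left; exact h
  | succ j hkj ih =>
    intro h
    have h1 : w <:+: (z a ++ B P j) ++
        (P (mm P j)).flatMap (fun p => z (gg P j + 1) ++ isl (gg P j) p) ++
        z (gg P j + 1) ++ (B P j ++ z a) := by
      rw [B_succ] at h
      simpa [List.append_assoc] using h
    rcases infix_flatMap (H j hkj) _ _ _ _ h1 with h2 | ⟨p, hp, h2⟩ | h2
    · exact ih h2
    · right; exact ⟨j, hkj, p, hp, h2⟩
    · apply ih; simpa [List.append_assoc] using h2

end

section system
variable {S : Type} [Far S] (P : ℕ → List (List S × List S))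

theorem win_infix_win {A : Type} {y : ℤ → A} {s s' : ℤ} {n n' : ℕ} (h1 : s' ≤ s)
    (h2 : s + n ≤ s' + n') : win y s n <:+: win y s' n' := by
  obtain ⟨a, rfl⟩ : ∃ a : ℕ, s = s' + a := ⟨(s - s').toNat, by omega⟩
  obtain ⟨b, rfl⟩ : ∃ b : ℕ, n' = a + n + b := ⟨n' - a - n, by omega⟩
  rw [win_append, win_append]
  exact ⟨_, _, rfl⟩

/-- The orbit closure: configurations all of whose words are factors of the words `B k`. -/
def carrierX : Set (Cfg S) := {y | ∀ (s : ℤ) (n : ℕ), ∃ k, win y.toFun s n <:+: B P k}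

/-- The system. -/
def XX : Sub S where
  carrier := carrierX P
  closed := by
    apply Cfg.isClosed_of_windows (fun y => ∀ (s : ℤ) (n : ℕ), ∃ k, win y s n <:+: B P k)
    intro x hx
    push Not at hx
    obtain ⟨s, n, hsn⟩ := hx
    refine ⟨s.natAbs + n + 1, fun y hy hcon => ?_⟩
    obtain ⟨k, hk⟩ := hcon s n
    apply hsn k
    have : win x.toFun s n = win y.toFun s n := by
      rw [win_eq_iff]
      intro i hi
      apply hy
      omega
    rw [this]; exact hk
  shift_mem x hx s n := by
    obtain ⟨k, hk⟩ := hx (s + 1) n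
    refine ⟨k, ?_⟩
    have : win (Cfg.shift x).toFun s n = win x.toFun (s + 1) n := by
      rw [win_eq_iff]
      intro i _
      simp only [Cfg.shift]
      congr 1; ring
    rw [this]; exact hk
  unshift_mem x hx s n := by
    obtain ⟨k, hk⟩ := hx (s - 1) n
    refine ⟨k, ?_⟩
    have : win (Cfg.unshift x).toFun s n = win x.toFun (s - 1) n := by
      rw [win_eq_iff]
      intro i _
      simp only [Cfg.unshift]
      congr 1; ring
    rw [this]; exact hk

/-- The base point `0^∞ . B_∞`. -/
def x0 : Cfg S := ⟨fun n => if n < 0 then none else (B P (n.toNat + 1)).getD n.toNat none⟩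

omit [Far S] in
theorem x0_apply {j i : ℕ} (h : i < (B P j).length) : (x0 P).toFun (i : ℤ) = (B P j)[i] := by
  have h1 : ¬ ((i : ℤ) < 0) := by omega
  have h2 : i < (B P (i + 1)).length := by have := le_B_length P (i + 1); omega
  simp only [x0, h1, if_false, Int.toNat_natCast]
  rw [List.getD_eq_getElem _ _ h2]
  rcases le_total (i + 1) j with hj | hj
  · exact (B_pre P hj).getElem h2
  · exact ((B_pre P hj).getElem h).symm

omit [Far S] in
theorem win_x0 (j : ℕ) : win (x0 P).toFun 0 (B P j).length = B P j := by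
  rw [win_eq_iff_list rfl]
  intro i hi
  rw [zero_add]
  exact x0_apply P hi

omit [Far S] in
theorem win_x0_neg (n j : ℕ) :
    win (x0 P).toFun (-(n : ℤ)) (n + (B P j).length) = z n ++ B P j := by
  rw [win_append]
  have h1 : (-(n : ℤ)) + (n : ℕ) = 0 := by ring
  rw [h1, win_x0]
  congr 1
  rw [win_eq_iff_list (z_length n)]
  intro i hi
  have : (-(n : ℤ)) + (i : ℕ) < 0 := by omega
  simp [x0, this, z]

theorem x0_mem : x0 P ∈ (XX P).carrier := by
  intro s n
  let N := s.natAbs + n + 1
  refine ⟨max N N + 1, ?_⟩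
  refine List.IsInfix.trans ?_ (zB_infix P N N)
  rw [← win_x0_neg]
  apply win_infix_win
  · omega
  · have := le_B_length P N
    omega

omit [Far S] in
theorem exists_pos_of_infix {w : List (Option S)} {j : ℕ} (h : w <:+: B P j) :
    ∃ s : ℕ, win (x0 P).toFun (s : ℤ) w.length = w := by
  obtain ⟨p, q, hpq⟩ := h
  refine ⟨p.length, ?_⟩
  have h1 := win_x0 P j
  rw [← hpq] at h1
  simp only [List.length_append] at h1
  rw [win_append, win_append] at h1
  have h2 := List.append_inj_left' h1 (by simp)
  have h3 := List.append_inj_right' h2 (by simp)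
  simpa using h3

theorem mem_lang_iff {n : ℕ} {w : List (Option S)} :
    w ∈ (XX P).lang n ↔ w.length = n ∧ ∃ j, w <:+: B P j := by
  constructor
  · rintro ⟨y, hy, rfl⟩
    exact ⟨by simp, hy 0 n⟩
  · rintro ⟨rfl, j, hj⟩
    obtain ⟨s, hs⟩ := exists_pos_of_infix P hj
    have := (XX P).win_mem_lang (x0_mem P) s w.length
    rwa [hs] at this

theorem isTransitive : IsTransitive (XX P).homeo := by
  refine ⟨⟨x0 P, x0_mem P⟩, ?_⟩
  rw [Metric.dense_iff]
  intro y r hr
  obtain ⟨N, hN⟩ := exists_pow_lt_of_lt_one hr (show (1 / 2 : ℝ) < 1 by norm_num)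
  obtain ⟨j, hj⟩ := y.2 (-(N : ℤ)) (2 * N + 1)
  obtain ⟨s, hs⟩ := exists_pos_of_infix P hj
  refine ⟨((XX P).homeo^[s + N] ⟨x0 P, x0_mem P⟩), ?_, ⟨s + N, rfl⟩⟩
  rw [Metric.mem_ball]
  refine lt_of_le_of_lt ?_ hN
  change dist ((XX P).homeo^[s + N] ⟨x0 P, x0_mem P⟩).1 y.1 ≤ _
  apply Cfg.dist_le_of_agree
  intro n hn
  rw [Sub.iterate_apply]
  simp only [win_length] at hs
  rw [win_eq_iff] at hs
  obtain ⟨i, hi⟩ : ∃ i : ℕ, (i : ℤ) = n + N := ⟨(n + N).toNat, by omega⟩
  have := hs i (by omega)
  rw [hi] at this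
  convert this using 2 <;> push_cast <;> ring

theorem exists_point {w : List (Option S)} {j : ℕ} (h : w <:+: B P j) :
    ∃ y : (XX P).carrier, win y.1.toFun 0 w.length = w := by
  have : w ∈ (XX P).lang w.length := (mem_lang_iff P).mpr ⟨rfl, j, h⟩
  obtain ⟨y, hy, hw⟩ := this
  exact ⟨⟨y, hy⟩, hw⟩

end system

end Pool.Agent.Weiss
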